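import Pool.Agent.Q61.UM.SAMPa

set_option autoImplicit false

/-! Project UM2 (helper97), job SAMP: Dirichlet polynomials, the zeros near the ends. -/

namespace Pool.Agent.Q61.UM

open Filter Topology MeasureTheory Complex
open Pool.Agent.Q97.UM

noncomputable section

/-- coefficients of the derivative -/
def bd (b : ℕ → ℂ) (n : ℕ) : ℂ := b n * (-(I * (Real.log n : ℂ)))

theorem dp_deriv (N : ℕ) (b : ℕ → ℂ) (t : ℝ) : HasDerivAt (dp N b) (dp N (bd b) t) t := by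
  unfold dp
  refine HasDerivAt.fun_sum fun n hn => ?_
  have hn1 : 1 ≤ n := (Finset.mem_Icc.1 hn).1
  have hn0 : (n : ℂ) ≠ 0 := by
    have : n ≠ 0 := by omega
    exact_mod_cast this
  have h1 : HasDerivAt (fun z : ℂ => (-(1 / 2 + z * I))) (-I) (t : ℂ) := by
    have h3 := (((hasDerivAt_id (t : ℂ)).mul_const I).const_add (1 / 2 : ℂ)).neg
    refine h3.congr_deriv ?_
    ring
  have h4 : HasDerivAt (fun t : ℝ => (n : ℂ) ^ (-(1 / 2 + (t : ℂ) * I)))
      ((n : ℂ) ^ (-(1 / 2 + (t : ℂ) * I)) * Complex.log n * (-I)) t :=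
    (h1.const_cpow (Or.inl hn0)).comp_ofReal
  have h5 := h4.const_mul (b n)
  refine h5.congr_deriv ?_
  unfold bd
  rw [← Complex.natCast_log]
  ring

theorem N2_nonneg (N : ℕ) (b : ℕ → ℂ) : 0 ≤ N2 N b := by
  unfold N2
  exact Finset.sum_nonneg fun n _ => by positivity

theorem N2_bd (N : ℕ) (b : ℕ → ℂ) : N2 N (bd b) ≤ Real.log N ^ 2 * N2 N b := by
  unfold N2
  rw [Finset.mul_sum]
  refine Finset.sum_le_sum fun n hn => ?_
  obtain ⟨h1, h2⟩ := Finset.mem_Icc.1 hn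
  have h3 : (1 : ℝ) ≤ n := by exact_mod_cast h1
  have h4 : (n : ℝ) ≤ N := by exact_mod_cast h2
  have h5 : 0 ≤ Real.log n := Real.log_nonneg h3
  have h6 : Real.log n ≤ Real.log N := Real.log_le_log (by linarith) h4
  have h7 : ‖bd b n‖ = ‖b n‖ * Real.log n := by
    unfold bd
    rw [norm_mul, norm_neg, norm_mul, Complex.norm_I, one_mul, Complex.norm_real, Real.norm_eq_abs, abs_of_nonneg h5]
  rw [h7, mul_pow]
  have h8 : Real.log n ^ 2 ≤ Real.log N ^ 2 := by gcongr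
  calc ‖b n‖ ^ 2 * Real.log n ^ 2 / n = Real.log n ^ 2 * (‖b n‖ ^ 2 / n) := by ring
    _ ≤ Real.log N ^ 2 * (‖b n‖ ^ 2 / n) := mul_le_mul_of_nonneg_right h8 (by positivity)

theorem dp_var (hD : S_DPM) (N : ℕ) (b : ℕ → ℂ) {lam : ℝ} (hl : 0 < lam) (x y : ℝ) :
    |‖dp N b y‖ ^ 2 - ‖dp N b x‖ ^ 2| ≤ |∫ t in x..y, (lam * ‖dp N b t‖ ^ 2 + lam⁻¹ * ‖dp N (bd b) t‖ ^ 2)| := by
  have hc : ∀ c : ℕ → ℂ, Continuous (dp N c) := fun c => (hD.2.2 N c 0).2
  have hd : ∀ t, HasDerivAt (fun t => ‖dp N b t‖ ^ 2) (2 * inner ℝ (dp N b t) (dp N (bd b) t)) t := by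
    intro t
    exact (dp_deriv N b t).norm_sq
  have hci : Continuous fun t => 2 * inner ℝ (dp N b t) (dp N (bd b) t) :=
    ((hc b).inner (hc (bd b))).const_mul 2 |>.congr fun t => rfl
  rw [← intervalIntegral.integral_eq_sub_of_hasDerivAt (fun t _ => hd t) (hci.intervalIntegrable _ _), ← Real.norm_eq_abs]
  apply intervalIntegral.norm_integral_le_abs_of_norm_le
  · refine Eventually.of_forall fun t => ?_
    rw [Real.norm_eq_abs, abs_mul, abs_of_pos (by norm_num : (0 : ℝ) < 2)]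
    have h1 := abs_real_inner_le_norm (dp N b t) (dp N (bd b) t)
    have h2 : 2 * (‖dp N b t‖ * ‖dp N (bd b) t‖) ≤ lam * ‖dp N b t‖ ^ 2 + lam⁻¹ * ‖dp N (bd b) t‖ ^ 2 := by
      have h3 : 0 ≤ lam⁻¹ * (lam * ‖dp N b t‖ - ‖dp N (bd b) t‖) ^ 2 := by positivity
      have h4 : lam⁻¹ * (lam * ‖dp N b t‖ - ‖dp N (bd b) t‖) ^ 2 = lam * ‖dp N b t‖ ^ 2 + lam⁻¹ * ‖dp N (bd b) t‖ ^ 2 -
          2 * (‖dp N b t‖ * ‖dp N (bd b) t‖) := by
        field_simp
        ring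
      linarith
    linarith
  · refine Continuous.intervalIntegrable ?_ _ _
    exact (((hc b).norm.pow 2).const_mul _).add (((hc (bd b)).norm.pow 2).const_mul _)

/-! ### zeros near the ends -/

theorem NN_win {C : ℝ} (hC : 0 < C) (h : ∀ t : ℝ, 3 ≤ t → (H370.NN riemannZeta (t - 1) (t + 1) : ℝ) ≤ C * Real.log t)
    {a : ℝ} (ha : 2 ≤ a) (k : ℕ) : (H370.NN riemannZeta a (a + 2 * k) : ℝ) ≤ k * (C * Real.log (a + 2 * k)) := by
  have hF := H370.good_zeta
  induction k with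
  | zero =>
    have h1 := H370.NN_add hF (a := a) (b := a) (c := a) (by linarith) le_rfl le_rfl
    have h2 : H370.NN riemannZeta a a = 0 := by omega
    simp [h2]
  | succ k ih =>
    have hk : (0 : ℝ) ≤ k := Nat.cast_nonneg k
    have h1 := H370.NN_add hF (a := a) (b := a + 2 * k) (c := a + 2 * k + 2) (by linarith) (by linarith) (by linarith)
    have h2 := h (a + 2 * k + 1) (by linarith)
    have e1 : a + 2 * k + 1 - 1 = a + 2 * k := by ring
    have e2 : a + 2 * k + 1 + 1 = a + 2 * k + 2 := by ring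
    rw [e1, e2] at h2
    have e3 : a + 2 * ((k + 1 : ℕ) : ℝ) = a + 2 * k + 2 := by push_cast; ring
    rw [e3, h1]
    push_cast
    have h3 : Real.log (a + 2 * k) ≤ Real.log (a + 2 * k + 2) := Real.log_le_log (by linarith) (by linarith)
    have h4 : Real.log (a + 2 * k + 1) ≤ Real.log (a + 2 * k + 2) := Real.log_le_log (by linarith) (by linarith)
    have h5 : (k : ℝ) * (C * Real.log (a + 2 * k)) ≤ k * (C * Real.log (a + 2 * k + 2)) := by gcongr
    have h6 : C * Real.log (a + 2 * k + 1) ≤ C * Real.log (a + 2 * k + 2) := by gcongr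
    linarith

open Classical in
theorem outer_sum {C : ℝ} (hC : 0 < C) (h : ∀ t : ℝ, 3 ≤ t → (H370.NN riemannZeta (t - 1) (t + 1) : ℝ) ≤ C * Real.log t)
    {T L r : ℝ} (hL : L = Real.log T) (hL1 : 1 ≤ L) (hrL : r ≤ 1) (hT : 4 ≤ T) (hLT : 4 * L ≤ T) :
    ∑ s ∈ (H370.Zf riemannZeta T (2 * T)).filter
      (fun s => ¬ (T + 2 * L ≤ s.im - r ∧ s.im + r ≤ 2 * T - 2 * L)), (mz s : ℝ) ≤ 12 * C * L ^ 2 := by
  have hF := H370.good_zeta
  obtain ⟨k, hk1, hk2⟩ : ∃ k : ℕ, 2 * L ≤ k ∧ (k : ℝ) ≤ 3 * L := by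
    refine ⟨⌈2 * L⌉₊, Nat.le_ceil _, ?_⟩
    have := (Nat.ceil_lt_add_one (show 0 ≤ 2 * L by linarith)).le
    linarith
  have hsub : (H370.Zf riemannZeta T (2 * T)).filter
      (fun s => ¬ (T + 2 * L ≤ s.im - r ∧ s.im + r ≤ 2 * T - 2 * L)) ⊆
      H370.Zf riemannZeta T (T + 2 * k) ∪ H370.Zf riemannZeta (2 * T - 4 * L) (2 * T - 4 * L + 2 * k) := by
    intro s hs
    rw [Finset.mem_filter, H370.mem_Zf hF (by linarith)] at hs
    obtain ⟨hs1, hs2⟩ := hs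
    rw [Finset.mem_union, H370.mem_Zf hF (by linarith), H370.mem_Zf hF (by linarith)]
    obtain ⟨a1, a2, a3, a4, a5⟩ := hs1
    rw [not_and_or] at hs2
    rcases hs2 with h2 | h2
    · rw [not_le] at h2
      left
      exact ⟨a1, a2, a3, by linarith, a5⟩
    · rw [not_le] at h2
      right
      exact ⟨a1, a2, by linarith, by linarith, a5⟩
  have hsum : ∀ a b : ℝ, 1 ≤ a → ∑ s ∈ H370.Zf riemannZeta a b, (mz s : ℝ) = (H370.NN riemannZeta a b : ℝ) := by
    intro a b ha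
    have h1 := H370.NN_eq hF (U1 := a) (U2 := b) ha
    rw [h1]
    push_cast
    rfl
  have h1 : ∑ s ∈ (H370.Zf riemannZeta T (2 * T)).filter
      (fun s => ¬ (T + 2 * L ≤ s.im - r ∧ s.im + r ≤ 2 * T - 2 * L)), (mz s : ℝ) ≤
      ∑ s ∈ H370.Zf riemannZeta T (T + 2 * k) ∪ H370.Zf riemannZeta (2 * T - 4 * L) (2 * T - 4 * L + 2 * k), (mz s : ℝ) :=
    Finset.sum_le_sum_of_subset_of_nonneg hsub fun _ _ _ => Nat.cast_nonneg _
  have h2 : ∑ s ∈ H370.Zf riemannZeta T (T + 2 * k) ∪ H370.Zf riemannZeta (2 * T - 4 * L) (2 * T - 4 * L + 2 * k), (mz s : ℝ) ≤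
      ∑ s ∈ H370.Zf riemannZeta T (T + 2 * k), (mz s : ℝ) +
      ∑ s ∈ H370.Zf riemannZeta (2 * T - 4 * L) (2 * T - 4 * L + 2 * k), (mz s : ℝ) := by
    rw [← Finset.sum_union_inter]
    have : 0 ≤ ∑ s ∈ H370.Zf riemannZeta T (T + 2 * k) ∩ H370.Zf riemannZeta (2 * T - 4 * L) (2 * T - 4 * L + 2 * k), (mz s : ℝ) :=
      Finset.sum_nonneg fun _ _ => Nat.cast_nonneg _
    linarith
  rw [hsum _ _ (by linarith), hsum _ _ (by linarith)] at h2
  have h3 := NN_win hC h (a := T) (by linarith) k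
  have h4 := NN_win hC h (a := 2 * T - 4 * L) (by linarith) k
  have hlog : ∀ x : ℝ, 0 < x → x ≤ 4 * T → Real.log x ≤ 2 * L := by
    intro x hx hx2
    have h5 : Real.log x ≤ Real.log (T ^ 2) := Real.log_le_log hx (by nlinarith)
    rw [Real.log_pow] at h5
    rw [hL]
    push_cast at h5
    exact h5
  have hk0 : (0 : ℝ) ≤ k := Nat.cast_nonneg k
  have h5 : (k : ℝ) * (C * Real.log (T + 2 * k)) ≤ 3 * L * (C * (2 * L)) := by
    have := hlog (T + 2 * k) (by linarith) (by linarith)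
    have h6 : 0 ≤ Real.log (T + 2 * k) := Real.log_nonneg (by linarith)
    gcongr
  have h6 : (k : ℝ) * (C * Real.log (2 * T - 4 * L + 2 * k)) ≤ 3 * L * (C * (2 * L)) := by
    have := hlog (2 * T - 4 * L + 2 * k) (by linarith) (by linarith)
    have h6 : 0 ≤ Real.log (2 * T - 4 * L + 2 * k) := Real.log_nonneg (by linarith)
    gcongr
  have h7 : 3 * L * (C * (2 * L)) = 6 * C * L ^ 2 := by ring
  linarith

end

end Pool.Agent.Q61.UM
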