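import Pool.Agent.Q97.UM.Stm6

set_option autoImplicit false

/-! Project UM2 (helper97), job DET: pointwise bounds and the pair sum. -/

namespace Pool.Agent.Q61.UM

open Filter Topology MeasureTheory Complex
open scoped ComplexConjugate
open Pool.Agent.Q97.UM

noncomputable section

section

variable {δ H C : ℝ} {K : ℕ} {w : ℝ → ℝ}

theorem om_conj (hw : OmW δ H C K w) (z : ℂ) : om w (conj z) = conj (om w z) := by
  unfold om
  rw [← integral_conj, ← integral_neg_eq_self]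
  congr 1
  funext v
  rw [hw.even, map_mul, Complex.conj_ofReal, ← Complex.exp_conj, map_mul, map_mul, Complex.conj_I, Complex.conj_ofReal]
  congr 2
  push_cast
  ring

theorem one_le_ex {a y : ℝ} (ha : 0 ≤ a) (hy : 0 ≤ y) : 1 ≤ Real.exp (a * y) := Real.one_le_exp (by positivity)

/-- the part `e^{-ζ}` -/
theorem one_sub_exp {ζ : ℂ} (h : ‖ζ‖ ≤ 1 / 4) : ‖1 - cexp (-ζ)‖ ≤ 2 * ‖ζ‖ := by
  have h1 := Complex.norm_exp_sub_one_sub_id_le (x := -ζ) (by rw [norm_neg]; linarith)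
  rw [norm_neg] at h1
  have h2 : 1 - cexp (-ζ) = ζ - (cexp (-ζ) - 1 - -ζ) := by ring
  rw [h2]
  refine (norm_sub_le _ _).trans ?_
  nlinarith [norm_nonneg ζ]

theorem quad_le {δ y : ℝ} (hδ : 0 < δ) (hy : 0 ≤ y) : y ^ 2 ≤ 2 / δ ^ 2 * Real.exp (δ * y) := by
  have h1 := Real.quadratic_le_exp_of_nonneg (x := δ * y) (by positivity)
  have h2 : (δ * y) ^ 2 ≤ 2 * Real.exp (δ * y) := by
    have : 0 ≤ δ * y := by positivity
    linarith
  rw [div_mul_eq_mul_div, le_div_iff₀ (by positivity)]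
  nlinarith

/-- points in the window -/
theorem near_bd (hδ : 0 < δ) (hH : 1 ≤ H) (hC : 1 ≤ C) (hw : OmW δ H C K w) {L : ℝ} (hL0 : 0 < L)
    (hL1 : 4 * H ^ 2 ≤ L ^ 2) (hL2 : 4 * H ^ 3 ≤ L ^ 2) (hL3 : 8 * H / δ ^ 2 ≤ L ^ 2) {ξ : ℂ} (h1 : |ξ.re| ≤ H) (h2 : |ξ.im| ≤ L / 2) :
    ‖1 - om w ξ ^ 2 * cexp (-(ξ / L) ^ 2 / 2)‖ ≤ 8 * C ^ 2 * Psi δ H K ξ.re |ξ.im| := by
  set y := |ξ.im| with hy
  have hy0 : 0 ≤ y := abs_nonneg _
  have hx0 := abs_nonneg ξ.re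
  set e := Real.exp (δ * y) with he
  have he1 : 1 ≤ e := one_le_ex hδ.le hy0
  have hq1 : 1 ≤ (1 + (H - |ξ.re|)) ^ K := one_le_pow₀ (by linarith)
  set q := (1 + (H - |ξ.re|)) ^ K with hq
  have n1 := hw.near ξ h1
  rw [← hq, ← hy, ← he] at n1
  have hCe : 1 ≤ C * e := by nlinarith
  have n2 : C * e / q ≤ C * e := div_le_self (by positivity) hq1
  have n3 : ‖om w ξ‖ ≤ 2 * (C * e) := by
    have : om w ξ = (om w ξ - 1) + 1 := by ring
    rw [this]
    refine (norm_add_le _ _).trans ?_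
    rw [norm_one]
    linarith
  have n4 : ‖1 - om w ξ ^ 2‖ ≤ 3 * (C * e) ^ 2 / q := by
    have h3 : 1 - om w ξ ^ 2 = -((om w ξ - 1) * (om w ξ + 1)) := by ring
    rw [h3, norm_neg, norm_mul]
    have h4 : ‖om w ξ + 1‖ ≤ 3 * (C * e) := by
      refine (norm_add_le _ _).trans ?_
      rw [norm_one]
      linarith
    calc ‖om w ξ - 1‖ * ‖om w ξ + 1‖ ≤ (C * e / q) * (3 * (C * e)) :=
          mul_le_mul n1 h4 (norm_nonneg _) (by positivity)
      _ = _ := by ring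
  -- the Gaussian factor
  set ζ : ℂ := (ξ / L) ^ 2 / 2 with hζ
  have hζn : ‖ζ‖ = (ξ.re ^ 2 + ξ.im ^ 2) / L ^ 2 / 2 := by
    rw [hζ, norm_div, norm_pow, norm_div, Complex.norm_real, Real.norm_of_nonneg hL0.le, div_pow]
    have h5 : ‖ξ‖ ^ 2 = ξ.re ^ 2 + ξ.im ^ 2 := by
      rw [← Complex.normSq_eq_norm_sq, Complex.normSq_apply]; ring
    rw [h5]
    simp
  have hx2 : ξ.re ^ 2 ≤ H ^ 2 := by
    rw [← sq_abs]
    exact pow_le_pow_left₀ hx0 h1 2
  have hy2 : ξ.im ^ 2 = y ^ 2 := (sq_abs _).symm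
  have hy3 : y ^ 2 ≤ L ^ 2 / 4 := by
    have := pow_le_pow_left₀ hy0 h2 2
    linarith [this, (by ring : (L / 2) ^ 2 = L ^ 2 / 4)]
  have hζ4 : ‖ζ‖ ≤ 1 / 4 := by
    rw [hζn, hy2, div_div, div_le_iff₀ (by positivity)]
    linarith
  have hL20 : 0 < L ^ 2 := by positivity
  have hζe : ‖ζ‖ ≤ e / (2 * H) / 2 := by
    rw [hζn, hy2]
    refine div_le_div_of_nonneg_right ?_ (by norm_num)
    rw [div_le_div_iff₀ hL20 (by positivity)]
    have h6 : ξ.re ^ 2 * (2 * H) ≤ e * L ^ 2 / 2 := by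
      calc ξ.re ^ 2 * (2 * H) ≤ H ^ 2 * (2 * H) := by gcongr
        _ = (4 * H ^ 3) / 2 := by ring
        _ ≤ L ^ 2 / 2 := by linarith
        _ ≤ e * L ^ 2 / 2 := by nlinarith
    have h7 : y ^ 2 * (2 * H) ≤ e * L ^ 2 / 2 := by
      have h8 := quad_le hδ hy0
      calc y ^ 2 * (2 * H) ≤ (2 / δ ^ 2 * e) * (2 * H) := by gcongr
        _ = e * (8 * H / δ ^ 2) / 2 := by ring
        _ ≤ e * L ^ 2 / 2 := by gcongr
    linarith
  have n5 : ‖1 - cexp (-(ξ / L) ^ 2 / 2)‖ ≤ e / H / 2 := by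
    have h9 : -(ξ / L) ^ 2 / 2 = -ζ := by rw [hζ]; ring
    rw [h9]
    refine (one_sub_exp hζ4).trans ?_
    calc 2 * ‖ζ‖ ≤ 2 * (e / (2 * H) / 2) := by gcongr
      _ = e / H / 2 := by ring
  have h10 : 1 - om w ξ ^ 2 * cexp (-(ξ / L) ^ 2 / 2) =
      (1 - om w ξ ^ 2) + om w ξ ^ 2 * (1 - cexp (-(ξ / L) ^ 2 / 2)) := by ring
  rw [h10]
  refine (norm_add_le _ _).trans ?_
  rw [norm_mul, norm_pow]
  have h11 : ‖om w ξ‖ ^ 2 * ‖1 - cexp (-(ξ / L) ^ 2 / 2)‖ ≤ (2 * (C * e)) ^ 2 * (e / H / 2) :=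
    mul_le_mul (pow_le_pow_left₀ (norm_nonneg _) n3 2) n5 (norm_nonneg _) (by positivity)
  have he3 : Real.exp (3 * δ * y) = e ^ 3 := by
    rw [he, ← Real.exp_nat_mul]; congr 1; push_cast; ring
  have hP : Psi δ H K ξ.re y = e ^ 3 * (1 / q + 0 + 1 / H) := by
    unfold Psi
    rw [he3, if_neg (by rintro ⟨h, -⟩; linarith), if_pos h1]
    have h12 : |(|ξ.re| - H)| = H - |ξ.re| := by rw [abs_of_nonpos (by linarith)]; ring
    rw [h12]
  rw [hP]
  have h13 : 3 * (C * e) ^ 2 / q ≤ 8 * C ^ 2 * (e ^ 3 * (1 / q)) := by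
    have : 3 * (C * e) ^ 2 / q = 3 * C ^ 2 * (e ^ 2 * (1 / q)) := by ring
    rw [this]
    have h14 : e ^ 2 * (1 / q) ≤ e ^ 3 * (1 / q) := by
      apply mul_le_mul_of_nonneg_right _ (by positivity)
      exact pow_le_pow_right₀ he1 (by norm_num)
    have h15 : 0 ≤ e ^ 3 * (1 / q) := by positivity
    nlinarith [sq_nonneg C, mul_le_mul_of_nonneg_left h14 (by positivity : 0 ≤ 3 * C ^ 2)]
  have h16 : (2 * (C * e)) ^ 2 * (e / H / 2) ≤ 8 * C ^ 2 * (e ^ 3 * (1 / H)) := by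
    have : (2 * (C * e)) ^ 2 * (e / H / 2) = 2 * C ^ 2 * (e ^ 3 * (1 / H)) := by ring
    rw [this]
    have h15 : 0 ≤ C ^ 2 * (e ^ 3 * (1 / H)) := by positivity
    linarith
  calc ‖1 - om w ξ ^ 2‖ + ‖om w ξ‖ ^ 2 * ‖1 - cexp (-(ξ / L) ^ 2 / 2)‖ ≤
        8 * C ^ 2 * (e ^ 3 * (1 / q)) + 8 * C ^ 2 * (e ^ 3 * (1 / H)) := by linarith
    _ = 8 * C ^ 2 * (e ^ 3 * (1 / q + 0 + 1 / H)) := by ring

/-- points outside the window -/
theorem far_bd (hw : OmW δ H C K w) (hC : 1 ≤ C) {L : ℝ} (hL0 : 0 < L) {ξ : ℂ} (h1 : H < |ξ.re|) (h2 : |ξ.im| ≤ L / 2) :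
    ‖om w ξ ^ 2 * cexp (-(ξ / L) ^ 2 / 2)‖ ≤
      2 * C ^ 2 * Real.exp (δ * |ξ.im|) ^ 2 / ((1 + (|ξ.re| - H)) ^ K) ^ 2 := by
  set y := |ξ.im| with hy
  have hy0 : 0 ≤ y := abs_nonneg _
  have f1 := hw.far ξ h1.le
  rw [norm_mul, norm_pow]
  have f2 : ‖cexp (-(ξ / L) ^ 2 / 2)‖ ≤ 2 := by
    rw [Complex.norm_exp]
    have h3 : (-(ξ / L) ^ 2 / 2).re = (ξ.im ^ 2 - ξ.re ^ 2) / L ^ 2 / 2 := by
      have h4 : -(ξ / L) ^ 2 / 2 = ((1 / (2 * L ^ 2) : ℝ) : ℂ) * (-(ξ ^ 2)) := by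
        push_cast
        have : (L : ℂ) ≠ 0 := by exact_mod_cast hL0.ne'
        field_simp
      have h4' : (ξ ^ 2).re = ξ.re * ξ.re - ξ.im * ξ.im := by rw [sq, Complex.mul_re]
      rw [h4, Complex.re_ofReal_mul, Complex.neg_re, h4']
      field_simp
      ring
    rw [h3]
    have h5 : ξ.im ^ 2 ≤ L ^ 2 / 4 := by
      rw [← sq_abs]
      have := pow_le_pow_left₀ hy0 h2 2
      linarith [this, (by ring : (L / 2) ^ 2 = L ^ 2 / 4)]
    have h6 : (ξ.im ^ 2 - ξ.re ^ 2) / L ^ 2 / 2 ≤ 1 / 8 := by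
      rw [div_div, div_le_iff₀ (by positivity)]
      nlinarith [sq_nonneg ξ.re]
    refine (Real.exp_le_exp.2 h6).trans ?_
    have h7 := Real.exp_bound_div_one_sub_of_interval (x := 1 / 8) (by norm_num) (by norm_num)
    linarith
  calc ‖om w ξ‖ ^ 2 * ‖cexp (-(ξ / L) ^ 2 / 2)‖ ≤
        (C * Real.exp (δ * y) / (1 + (|ξ.re| - H)) ^ K) ^ 2 * 2 :=
        mul_le_mul (pow_le_pow_left₀ (norm_nonneg _) f1 2) f2 (norm_nonneg _) (by positivity)
    _ = _ := by rw [div_pow, mul_pow]; ring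

/-- `Psi` outside the window -/
theorem Psi_out {x y : ℝ} (h : H < |x|) : Psi δ H K x y = Real.exp (3 * δ * y) *
    (1 / (1 + (|x| - H)) ^ K + if (1 + (|x| - H)) ^ K < Real.exp y then 1 else 0) := by
  unfold Psi
  have h12 : |(|x| - H)| = |x| - H := abs_of_nonneg (by linarith)
  rw [h12, if_neg (not_le.2 h), add_zero]
  simp only [h, true_and]

theorem Psi_nonneg (hH : 0 ≤ H) (x y : ℝ) : 0 ≤ Psi δ H K x y := by
  unfold Psi
  refine mul_nonneg (Real.exp_pos _).le (add_nonneg (add_nonneg (by positivity) ?_) ?_)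
  · split_ifs <;> norm_num
  · split_ifs
    · positivity
    · exact le_rfl

end

/-- the bound for the kernel -/
theorem kap_bd {g : ℝ → ℝ} (hg : H295SI.Win g) {Λ : ℝ} (hΛ : 0 ≤ Λ) (z : ℂ) :
    ‖H295SI.kapG g (Λ * (z - conj z))‖ ≤ Real.exp (Λ * |z.im|) := by
  have e0 : z - conj z = ((2 * z.im : ℝ) : ℂ) * I := by
    apply Complex.ext
    · simp
    · simp; ring
  have h0 := abs_nonneg z.im
  have hgc := hg.cont
  unfold H295SI.kapG
  refine (intervalIntegral.norm_integral_le_integral_norm (by norm_num)).trans ?_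
  have h2 : ∫ y in (-1 / 2 : ℝ)..(1 / 2), ‖(g y : ℂ) * cexp (I * (Λ * (z - conj z)) * y)‖ ≤
      ∫ y in (-1 / 2 : ℝ)..(1 / 2), g y * Real.exp (Λ * |z.im|) := by
    refine intervalIntegral.integral_mono_on (by norm_num) ?_ ?_ fun y hy => ?_
    · exact (by fun_prop : Continuous fun y : ℝ =>
        ‖(g y : ℂ) * cexp (I * (Λ * (z - conj z)) * y)‖).intervalIntegrable _ _
    · exact (hgc.mul continuous_const).intervalIntegrable _ _
    · have hg0 := hg.nonneg y (by linarith [hy.1]) hy.2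
      rw [norm_mul, Complex.norm_real, Real.norm_of_nonneg hg0]
      apply mul_le_mul_of_nonneg_left _ hg0
      have e1 : I * (Λ * (z - conj z)) * y = ((-(2 * Λ * z.im * y) : ℝ) : ℂ) := by
        rw [e0]
        have hI : I ^ 2 = -1 := I_sq
        push_cast
        linear_combination (2 * (Λ : ℂ) * (z.im : ℂ) * y) * hI
      rw [e1, ← Complex.ofReal_exp, Complex.norm_real, Real.norm_of_nonneg (Real.exp_pos _).le]
      apply Real.exp_le_exp.2
      have hy2 : |y| ≤ 1 / 2 := by rw [abs_le]; constructor <;> linarith [hy.1, hy.2]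
      calc -(2 * Λ * z.im * y) ≤ |2 * Λ * z.im * y| := neg_le_abs _
        _ = 2 * Λ * |z.im| * |y| := by
          rw [abs_mul, abs_mul, abs_of_nonneg (by positivity : 0 ≤ 2 * Λ)]
        _ ≤ 2 * Λ * |z.im| * (1 / 2) := by gcongr
        _ = Λ * |z.im| := by ring
  refine h2.trans ?_
  rw [intervalIntegral.integral_mul_const, hg.mass, one_mul]

/-- the pair sum as an integral -/
theorem pair_int {g R : ℝ → ℝ} (hR : H295SI.Conv R) (hK : H295SI.KSq g R) (Z : Finset ℂ) (c : ℂ → ℂ) (Λ : ℝ)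
    (hc : ∀ u : ℝ, ∑ z ∈ Z, c z * cexp (-(I * u * z)) = conj (∑ z ∈ Z, c z * cexp (I * u * z))) :
    (∑ z ∈ Z, ∑ w ∈ Z, c z * c w * H295SI.kapG g (Λ * (z - w)) ^ 2).re =
      2 * ∫ α in (0 : ℝ)..1, R α * ‖∑ z ∈ Z, c z * cexp (I * ((Λ * α : ℝ) : ℂ) * z)‖ ^ 2 := by
  obtain ⟨KR, hKR, hlip⟩ := hR.lip
  have hRc : Continuous R := by
    rw [Metric.continuous_iff]
    intro x ε hε
    refine ⟨ε / KR, by positivity, fun y hy => ?_⟩
    rw [Real.dist_eq] at hy ⊢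
    rw [lt_div_iff₀ hKR] at hy
    have := hlip y x
    linarith
  set A : ℝ → ℂ := fun u => ∑ z ∈ Z, c z * cexp (I * u * z) with hA
  have hAc : Continuous A := by
    rw [hA]
    fun_prop
  have e1 : ∑ z ∈ Z, ∑ w ∈ Z, c z * c w * H295SI.kapG g (Λ * (z - w)) ^ 2 =
      ∫ α in (-1 : ℝ)..1, ((R α * ‖A (Λ * α)‖ ^ 2 : ℝ) : ℂ) := by
    have e2 : ∀ z w : ℂ, c z * c w * H295SI.kapG g (Λ * (z - w)) ^ 2 =
        ∫ α in (-1 : ℝ)..1, c z * c w * ((R α : ℂ) * cexp (I * (Λ * (z - w)) * α)) := by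
      intro z w
      rw [hK, intervalIntegral.integral_const_mul]
    simp_rw [e2]
    have hi : ∀ z w : ℂ, IntervalIntegrable (fun α : ℝ => c z * c w * ((R α : ℂ) * cexp (I * (Λ * (z - w)) * α)))
        volume (-1) 1 := by
      intro z w
      apply Continuous.intervalIntegrable
      fun_prop
    have e3 : ∀ z ∈ Z, ∑ w ∈ Z, ∫ α in (-1 : ℝ)..1, c z * c w * ((R α : ℂ) * cexp (I * (Λ * (z - w)) * α)) =
        ∫ α in (-1 : ℝ)..1, ∑ w ∈ Z, c z * c w * ((R α : ℂ) * cexp (I * (Λ * (z - w)) * α)) := fun z _ =>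
      (intervalIntegral.integral_finsetSum fun w _ => hi z w).symm
    rw [Finset.sum_congr rfl e3, ← intervalIntegral.integral_finsetSum]
    · congr 1
      funext α
      have e4 : ((R α * ‖A (Λ * α)‖ ^ 2 : ℝ) : ℂ) = (R α : ℂ) * (A (Λ * α) * conj (A (Λ * α))) := by
        rw [Complex.mul_conj, Complex.normSq_eq_norm_sq]
        push_cast
        ring
      rw [e4, hA]
      simp only
      rw [← hc, Finset.sum_mul_sum, Finset.mul_sum]
      refine Finset.sum_congr rfl fun z _ => ?_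
      rw [Finset.mul_sum]
      refine Finset.sum_congr rfl fun w _ => ?_
      have e5 : cexp (I * (Λ * (z - w)) * α) = cexp (I * ((Λ * α : ℝ) : ℂ) * z) * cexp (-(I * ((Λ * α : ℝ) : ℂ) * w)) := by
        rw [← Complex.exp_add]
        congr 1
        push_cast
        ring
      rw [e5]
      ring
    · intro z _
      apply Continuous.intervalIntegrable
      fun_prop
  rw [e1, intervalIntegral.integral_ofReal, Complex.ofReal_re]
  set f : ℝ → ℝ := fun α => R α * ‖A (Λ * α)‖ ^ 2 with hf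
  have hfc : Continuous f := hRc.mul ((hAc.comp (continuous_const.mul continuous_id)).norm.pow 2)
  have hAneg : ∀ u, ‖A (-u)‖ = ‖A u‖ := by
    intro u
    have h1 : A (-u) = ∑ z ∈ Z, c z * cexp (-(I * u * z)) := by
      rw [hA]
      simp only
      refine Finset.sum_congr rfl fun z _ => ?_
      congr 2
      push_cast
      ring
    rw [h1, hc, RCLike.norm_conj]
  have hfe : ∀ α, f (-α) = f α := by
    intro α
    rw [hf]
    simp only
    rw [hR.even, mul_neg, hAneg]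
  have h1 : ∫ α in (-1 : ℝ)..1, f α = (∫ α in (-1 : ℝ)..0, f α) + ∫ α in (0 : ℝ)..1, f α :=
    (intervalIntegral.integral_add_adjacent_intervals (hfc.intervalIntegrable _ _) (hfc.intervalIntegrable _ _)).symm
  have h2 : ∫ α in (-1 : ℝ)..0, f α = ∫ α in (0 : ℝ)..1, f α := by
    have h3 := intervalIntegral.integral_comp_neg (a := 0) (b := 1) f
    rw [neg_zero] at h3
    rw [← h3]
    congr 1
    funext α
    exact hfe α
  rw [h1, h2]
  ring

end

end Pool.Agent.Q61.UM
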