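import Pool.Agent.Q97.UM.Stm6

set_option autoImplicit false

/-! Project UM2 (helper97), job EFL: the local explicit formula. -/

namespace Pool.Agent.Q61.UM

open Filter Topology MeasureTheory Complex
open scoped ComplexConjugate
open Pool.Agent.Q97.UM

noncomputable section

theorem int_exp_abs : Integrable (fun x : ℝ => Real.exp (-|x|)) ∧ (∫ x : ℝ, Real.exp (-|x|)) = 2 := by
  have h1 : (∫ x : ℝ, Real.exp (-|x|)) = 2 := by
    rw [integral_comp_abs (f := fun x => Real.exp (-x)), integral_exp_neg_Ioi_zero]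
    norm_num
  refine ⟨?_, h1⟩
  by_contra h
  rw [integral_undef h] at h1
  norm_num at h1

/-- the kernel on the line -/
structure Ker (δ M : ℝ) (q : ℝ → ℝ) : Prop where
  cont : Continuous q
  even : ∀ v, q (-v) = q v
  supp : ∀ v, 2 * δ ≤ |v| → q v = 0
  bd : ∀ v, |q v| ≤ M

section

variable {δ M : ℝ} {q : ℝ → ℝ}

theorem Ker.csupp (hq : Ker δ M q) : HasCompactSupport q := by
  apply HasCompactSupport.of_support_subset_isCompact (isCompact_Icc (a := -(2 * δ)) (b := 2 * δ))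
  intro v hv
  rw [Function.mem_support] at hv
  rw [Set.mem_Icc, ← abs_le]
  by_contra h
  exact hv (hq.supp v (not_le.1 h).le)

theorem Ker.int (hq : Ker δ M q) {f : ℝ → ℂ} (hf : Continuous f) : Integrable fun v => (q v : ℂ) * f v := by
  apply Continuous.integrable_of_hasCompactSupport
  · exact (Complex.continuous_ofReal.comp hq.cont).mul hf
  · apply HasCompactSupport.mul_right
    exact hq.csupp.comp_left (g := fun x : ℝ => (x : ℂ)) Complex.ofReal_zero

/-- terms of the prime sum -/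
def tm (q : ℝ → ℝ) (L a t : ℝ) (n : ℕ) (v : ℝ) : ℂ := (q v : ℂ) * (cexp (-(I * v * L * t)) *
  (H370.A2.lamC n * (Real.sqrt n : ℂ)⁻¹ * cexp (I * t * ((a + v * L : ℝ) - Real.log n)) *
    Real.exp (-((a + v * L) - Real.log n) ^ 2 / 2)))

theorem tm_cont (hq : Ker δ M q) (L a t : ℝ) (n : ℕ) : Continuous (tm q L a t n) := by
  unfold tm
  have := hq.cont
  fun_prop

theorem tm_norm (L a t : ℝ) (n : ℕ) (v : ℝ) : ‖tm q L a t n v‖ =
    |q v| * (ArithmeticFunction.vonMangoldt n * (Real.sqrt n)⁻¹ * Real.exp (-((a + v * L) - Real.log n) ^ 2 / 2)) := by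
  unfold tm
  rw [norm_mul, norm_mul, norm_mul, norm_mul, norm_mul, norm_inv, Complex.norm_real, Complex.norm_real, Complex.norm_real,
    H370.A2.lamC_norm, Real.norm_eq_abs, Real.norm_of_nonneg (Real.sqrt_nonneg _),
    Real.norm_of_nonneg (Real.exp_pos _).le]
  have h1 : ‖cexp (-(I * v * L * t))‖ = 1 := by
    have : -(I * v * L * t) = ((-(v * L * t) : ℝ) : ℂ) * I := by push_cast; ring
    rw [this, Complex.norm_exp_ofReal_mul_I]
  have h2 : ‖cexp (I * t * ((a + v * L : ℝ) - Real.log n))‖ = 1 := by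
    have : I * t * ((a + v * L : ℝ) - Real.log n) = ((t * ((a + v * L) - Real.log n) : ℝ) : ℂ) * I := by push_cast; ring
    rw [this, Complex.norm_exp_ofReal_mul_I]
  rw [h1, h2]
  ring

/-- the majorant -/
def mj (M R : ℝ) (n : ℕ) : ℝ := M * Real.exp (2 * R + 2) * (1 / (n : ℝ) ^ (3 / 2 : ℝ))

theorem mj_summable (M R : ℝ) : Summable (mj M R) := by
  unfold mj
  exact (Real.summable_one_div_nat_rpow.2 (by norm_num)).mul_left _

theorem tm_le (hM : 0 ≤ M) (hq : Ker δ M q) {L a : ℝ} (hL : 0 ≤ L) (t : ℝ) (n : ℕ) (v : ℝ) :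
    ‖tm q L a t n v‖ ≤ mj M (|a| + 2 * δ * L) n := by
  rw [tm_norm]
  unfold mj
  rcases Nat.eq_zero_or_pos n with rfl | hn
  · simp
  by_cases hv : 2 * δ ≤ |v|
  · rw [hq.supp v hv, abs_zero, zero_mul]
    positivity
  have hn0 : (0 : ℝ) < n := by exact_mod_cast hn
  rw [not_le] at hv
  set x := a + v * L with hx
  have hxR : x ≤ |a| + 2 * δ * L := by
    have h1 : v * L ≤ 2 * δ * L := mul_le_mul_of_nonneg_right ((le_abs_self v).trans hv.le) hL
    have := le_abs_self a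
    rw [hx]; linarith
  have h1 : Real.exp (-(x - Real.log n) ^ 2 / 2) ≤ Real.exp (2 * (|a| + 2 * δ * L) + 2) * (1 / (n : ℝ) ^ 2) := by
    have h2 : -(x - Real.log n) ^ 2 / 2 ≤ 2 * x + 2 - 2 * Real.log n := by
      nlinarith [sq_nonneg (x - Real.log n + 2)]
    have h3 : (1 / (n : ℝ) ^ 2) = Real.exp (-(2 * Real.log n)) := by
      rw [Real.exp_neg, two_mul, Real.exp_add, Real.exp_log hn0, one_div, sq]
    rw [h3, ← Real.exp_add]
    apply Real.exp_le_exp.2
    linarith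
  have h4 : ArithmeticFunction.vonMangoldt n * (Real.sqrt n)⁻¹ * (1 / (n : ℝ) ^ 2) ≤ 1 / (n : ℝ) ^ (3 / 2 : ℝ) := by
    have h5 : ArithmeticFunction.vonMangoldt n ≤ n := by
      refine ArithmeticFunction.vonMangoldt_le_log.trans ?_
      have := Real.log_le_sub_one_of_pos hn0
      linarith
    have h6 : (Real.sqrt n)⁻¹ = (n : ℝ) ^ (-(1 / 2) : ℝ) := by
      rw [Real.sqrt_eq_rpow, ← Real.rpow_neg hn0.le]
    have h7 : (1 / (n : ℝ) ^ 2) = (n : ℝ) ^ (-2 : ℝ) := by
      rw [Real.rpow_neg hn0.le, one_div]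
      norm_cast
    have h8 : 1 / (n : ℝ) ^ (3 / 2 : ℝ) = (n : ℝ) ^ (1 : ℝ) * (n : ℝ) ^ (-(1 / 2) : ℝ) * (n : ℝ) ^ (-2 : ℝ) := by
      rw [← Real.rpow_add hn0, ← Real.rpow_add hn0, one_div, ← Real.rpow_neg hn0.le]
      norm_num
    rw [h6, h7, h8, Real.rpow_one]
    gcongr
  calc |q v| * (ArithmeticFunction.vonMangoldt n * (Real.sqrt n)⁻¹ * Real.exp (-(x - Real.log n) ^ 2 / 2)) ≤
        M * (ArithmeticFunction.vonMangoldt n * (Real.sqrt n)⁻¹ *
          (Real.exp (2 * (|a| + 2 * δ * L) + 2) * (1 / (n : ℝ) ^ 2))) := by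
        have h9 : (0 : ℝ) ≤ ArithmeticFunction.vonMangoldt n := ArithmeticFunction.vonMangoldt_nonneg
        have := hq.bd v
        gcongr
    _ = M * Real.exp (2 * (|a| + 2 * δ * L) + 2) *
          (ArithmeticFunction.vonMangoldt n * (Real.sqrt n)⁻¹ * (1 / (n : ℝ) ^ 2)) := by ring
    _ ≤ _ := mul_le_mul_of_nonneg_left h4 (by positivity)

theorem tm_tsum (L a t v : ℝ) : ∑' n, tm q L a t n v =
    (q v : ℂ) * (cexp (-(I * v * L * t)) * H370.PP H370.A2.lamC (a + v * L) t) := by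
  unfold tm H370.PP
  rw [tsum_mul_left, tsum_mul_left]

/-- the prime term -/
theorem cpow_eq {n : ℕ} (hn : 0 < n) (t : ℝ) : (n : ℂ) ^ (-(1 / 2 + t * I) : ℂ) =
    (Real.sqrt n : ℂ)⁻¹ * cexp (-(I * t * Real.log n)) := by
  have hn0 : (0 : ℝ) < n := by exact_mod_cast hn
  have hnc : (n : ℂ) ≠ 0 := by exact_mod_cast hn.ne'
  have h1 : (Real.sqrt n : ℂ)⁻¹ = cexp (-(1 / 2) * Real.log n) := by
    rw [← Complex.ofReal_inv, Real.sqrt_eq_rpow, ← Real.rpow_neg hn0.le, Real.rpow_def_of_pos hn0, Complex.ofReal_exp]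
    congr 1
    push_cast
    ring
  rw [h1, ← Complex.exp_add, Complex.cpow_def_of_ne_zero hnc, ← Complex.natCast_log]
  congr 1
  ring

theorem tm_int {w : ℝ → ℝ} {L : ℝ} (hL : 0 < L) (a t : ℝ) (n : ℕ) :
    ∫ v : ℝ, tm (qh w) L a t n v = (Real.sqrt (2 * Real.pi) : ℂ) * cexp (I * a * t) *
      ((ArithmeticFunction.vonMangoldt n : ℂ) * (n : ℂ) ^ (-(1 / 2 + t * I)) *
        ((QL w L (Real.log n - a) / L : ℝ) : ℂ)) := by
  rcases Nat.eq_zero_or_pos n with rfl | hn
  · have h1 : ∀ v, tm (qh w) L a t 0 v = 0 := by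
      intro v
      unfold tm H370.A2.lamC
      simp
    simp [h1]
  have h1 : ∀ v : ℝ, tm (qh w) L a t n v = ((ArithmeticFunction.vonMangoldt n : ℂ) * (Real.sqrt n : ℂ)⁻¹ *
      cexp (I * t * (a - Real.log n))) *
      ((qh w v * Real.exp (-((Real.log n - a) - v * L) ^ 2 / 2) : ℝ) : ℂ) := by
    intro v
    unfold tm H370.A2.lamC
    have h2 : -((a + v * L) - Real.log n) ^ 2 / 2 = -((Real.log n - a) - v * L) ^ 2 / 2 := by ring
    rw [h2]
    have h3 : cexp (-(I * v * L * t)) * cexp (I * t * ((a + v * L : ℝ) - Real.log n)) = cexp (I * t * (a - Real.log n)) := by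
      rw [← Complex.exp_add]
      congr 1
      push_cast
      ring
    rw [← h3]
    push_cast
    ring
  simp_rw [h1]
  have h6 : ∫ v : ℝ, ((qh w v * Real.exp (-((Real.log n - a) - v * L) ^ 2 / 2) : ℝ) : ℂ) =
      ((∫ v : ℝ, qh w v * Real.exp (-((Real.log n - a) - v * L) ^ 2 / 2) : ℝ) : ℂ) := integral_ofReal
  rw [integral_const_mul, h6, cpow_eq hn]
  have hpi : Real.sqrt (2 * Real.pi) ≠ 0 := (Real.sqrt_pos.2 (by positivity)).ne'
  have h4 : ((∫ v : ℝ, qh w v * Real.exp (-((Real.log n - a) - v * L) ^ 2 / 2) : ℝ) : ℂ) =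
      (Real.sqrt (2 * Real.pi) : ℂ) * ((QL w L (Real.log n - a) / L : ℝ) : ℂ) := by
    unfold QL
    rw [← Complex.ofReal_mul]
    congr 1
    generalize (∫ v : ℝ, qh w v * Real.exp (-((Real.log n - a) - v * L) ^ 2 / 2)) = J
    field_simp
  have h5 : cexp (I * t * (a - Real.log n)) = cexp (I * a * t) * cexp (-(I * t * Real.log n)) := by
    rw [← Complex.exp_add]
    congr 1
    ring
  rw [h4, h5]
  ring

/-- the prime side, integrated -/
theorem PP_int {w : ℝ → ℝ} (hM : 0 ≤ M) (hq : Ker δ M (qh w)) {L : ℝ} (hL : 0 < L) (a t : ℝ) :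
    Integrable (fun v : ℝ => (qh w v : ℂ) * (cexp (-(I * v * L * t)) * H370.PP H370.A2.lamC (a + v * L) t)) ∧
    ∫ v : ℝ, (qh w v : ℂ) * (cexp (-(I * v * L * t)) * H370.PP H370.A2.lamC (a + v * L) t) =
      (Real.sqrt (2 * Real.pi) : ℂ) * cexp (I * a * t) * PL w L a t := by
  have hb : ∀ n v, ‖tm (qh w) L a t n v‖ ≤ mj M (|a| + 2 * δ * L) n := fun n v => tm_le hM hq hL.le t n v
  have hc : Continuous fun v => ∑' n, tm (qh w) L a t n v :=
    continuous_tsum (tm_cont hq L a t) (mj_summable _ _) hb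
  have hz : ∀ v, 2 * δ ≤ |v| → ∀ n, tm (qh w) L a t n v = 0 := by
    intro v hv n
    unfold tm
    rw [hq.supp v hv]
    simp
  have hcs : ∀ f : ℝ → ℂ, (∀ v, 2 * δ ≤ |v| → f v = 0) → HasCompactSupport f := by
    intro f hf
    apply HasCompactSupport.of_support_subset_isCompact (isCompact_Icc (a := -(2 * δ)) (b := 2 * δ))
    intro v hv
    rw [Function.mem_support] at hv
    rw [Set.mem_Icc, ← abs_le]
    by_contra h
    exact hv (hf v (not_le.1 h).le)
  have hi : Integrable fun v => ∑' n, tm (qh w) L a t n v := by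
    refine hc.integrable_of_hasCompactSupport (hcs _ fun v hv => ?_)
    simp [hz v hv]
  have hin : ∀ n, Integrable (tm (qh w) L a t n) := fun n =>
    (tm_cont hq L a t n).integrable_of_hasCompactSupport (hcs _ fun v hv => hz v hv n)
  have hs : Summable fun n => ∫ v, ‖tm (qh w) L a t n v‖ := by
    refine Summable.of_nonneg_of_le (fun n => integral_nonneg fun v => norm_nonneg _) (fun n => ?_)
      ((mj_summable M (|a| + 2 * δ * L)).mul_left ((volume.real (Set.Icc (-(2 * δ)) (2 * δ)))))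
    have h1 : ∫ v, ‖tm (qh w) L a t n v‖ = ∫ v in Set.Icc (-(2 * δ)) (2 * δ), ‖tm (qh w) L a t n v‖ := by
      rw [← integral_indicator measurableSet_Icc]
      congr 1
      funext v
      by_cases hv : v ∈ Set.Icc (-(2 * δ)) (2 * δ)
      · rw [Set.indicator_of_mem hv]
      · rw [Set.indicator_of_notMem hv, hz v, norm_zero]
        rw [Set.mem_Icc, ← abs_le, not_le] at hv
        exact hv.le
    rw [h1]
    have h2 : ∫ v in Set.Icc (-(2 * δ)) (2 * δ), ‖tm (qh w) L a t n v‖ ≤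
        ∫ v in Set.Icc (-(2 * δ)) (2 * δ), mj M (|a| + 2 * δ * L) n := by
      refine setIntegral_mono (hin n).norm.integrableOn ?_ fun v => hb n v
      exact (continuous_const.integrableOn_Icc)
    refine h2.trans (le_of_eq ?_)
    rw [setIntegral_const, smul_eq_mul]
  have h3 := integral_tsum_of_summable_integral_norm hin hs
  have h4 : (fun v => ∑' n, tm (qh w) L a t n v) = fun v : ℝ => (qh w v : ℂ) *
      (cexp (-(I * v * L * t)) * H370.PP H370.A2.lamC (a + v * L) t) := funext fun v => tm_tsum L a t v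
  rw [h4] at h3 hi
  refine ⟨hi, ?_⟩
  rw [← h3]
  simp_rw [tm_int hL]
  rw [tsum_mul_left]
  rfl

/-- the zero side, integrated -/
theorem Zt_int {w : ℝ → ℝ} (hq : Ker δ M (qh w))
    (ho : ∀ z : ℂ, om w z ^ 2 = ∫ v : ℝ, (qh w v : ℂ) * cexp (I * (v * z))) {T : ℝ} (hT : 0 ≤ T) (u t : ℝ) :
    Integrable (fun v : ℝ => (qh w v : ℂ) * (cexp (-(I * v * Real.log T * t)) *
      H370.AA riemannZeta (T + 1) (2 * T - 1) (u + v * Real.log T) t)) ∧
    ∫ v : ℝ, (qh w v : ℂ) * (cexp (-(I * v * Real.log T * t)) *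
      H370.AA riemannZeta (T + 1) (2 * T - 1) (u + v * Real.log T) t) = Zt w T u t := by
  have hF := H370.good_zeta
  have hU : (1 : ℝ) ≤ T + 1 := by linarith
  set L := Real.log T with hL
  have hAA : ∀ v : ℝ, H370.AA riemannZeta (T + 1) (2 * T - 1) (u + v * L) t =
      ∑ s ∈ ZT T, (mz s : ℂ) * (cexp (I * (u + v * L : ℝ) * H370.zz s) * cexp (-(H370.zz s - t) ^ 2 / 2)) := by
    intro v
    rw [H370.AA_eq hF hU]
    refine Finset.sum_congr rfl fun s _ => ?_
    rw [H370.hh_eq]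
    rfl
  have hc : Continuous fun v : ℝ => cexp (-(I * v * L * t)) * H370.AA riemannZeta (T + 1) (2 * T - 1) (u + v * L) t := by
    simp_rw [hAA]
    fun_prop
  refine ⟨hq.int hc, ?_⟩
  have h1 : ∀ v : ℝ, (qh w v : ℂ) * (cexp (-(I * v * L * t)) * H370.AA riemannZeta (T + 1) (2 * T - 1) (u + v * L) t) =
      ∑ s ∈ ZT T, ((mz s : ℂ) * (cexp (I * u * H370.zz s) * cexp (-(H370.zz s - t) ^ 2 / 2))) *
        ((qh w v : ℂ) * cexp (I * (v * (L * (H370.zz s - t))))) := by
    intro v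
    rw [hAA, Finset.mul_sum, Finset.mul_sum]
    refine Finset.sum_congr rfl fun s _ => ?_
    have h2 : cexp (-(I * v * L * t)) * cexp (I * (u + v * L : ℝ) * H370.zz s) =
        cexp (I * u * H370.zz s) * cexp (I * (v * (L * (H370.zz s - t)))) := by
      rw [← Complex.exp_add, ← Complex.exp_add]
      congr 1
      push_cast
      ring
    calc _ = (qh w v : ℂ) * (mz s : ℂ) * cexp (-(H370.zz s - t) ^ 2 / 2) *
          (cexp (-(I * v * L * t)) * cexp (I * (u + v * L : ℝ) * H370.zz s)) := by ring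
      _ = _ := by rw [h2]; ring
  simp_rw [h1]
  rw [integral_finset_sum]
  · unfold Zt
    refine Finset.sum_congr rfl fun s _ => ?_
    rw [integral_const_mul, ← ho]
    ring
  · intro s _
    refine Integrable.const_mul (hq.int ?_) _
    fun_prop

/-- the conjugate prime side -/
theorem PPc_int {w : ℝ → ℝ} (hM : 0 ≤ M) (hq : Ker δ M (qh w)) {L : ℝ} (hL : 0 < L) (u t : ℝ) :
    Integrable (fun v : ℝ => (qh w v : ℂ) * (cexp (-(I * v * L * t)) * conj (H370.PP H370.A2.lamC (-(u + v * L)) t))) ∧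
    ∫ v : ℝ, (qh w v : ℂ) * (cexp (-(I * v * L * t)) * conj (H370.PP H370.A2.lamC (-(u + v * L)) t)) =
      (Real.sqrt (2 * Real.pi) : ℂ) * cexp (I * u * t) * conj (PL w L (-u) t) := by
  obtain ⟨h1, h2⟩ := PP_int hM hq hL (-u) t
  have h3 : ∀ v : ℝ, (qh w v : ℂ) * (cexp (-(I * v * L * t)) * conj (H370.PP H370.A2.lamC (-(u + v * L)) t)) =
      conj ((qh w (-v) : ℂ) * (cexp (-(I * (-v : ℝ) * L * t)) * H370.PP H370.A2.lamC (-u + (-v) * L) t)) := by
    intro v
    rw [map_mul, map_mul, Complex.conj_ofReal, hq.even, ← Complex.exp_conj]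
    have e1 : -(u + v * L) = -u + (-v) * L := by ring
    rw [e1]
    congr 3
    rw [map_neg, map_mul, map_mul, map_mul, Complex.conj_I, Complex.conj_ofReal, Complex.conj_ofReal, Complex.conj_ofReal]
    push_cast
    ring
  simp_rw [h3]
  constructor
  · exact (Complex.conjLIE.toContinuousLinearEquiv.toContinuousLinearMap.integrable_comp h1.comp_neg)
  · rw [integral_conj, integral_neg_eq_self (fun v : ℝ => (qh w v : ℂ) *
      (cexp (-(I * v * L * t)) * H370.PP H370.A2.lamC (-u + v * L) t)), h2, map_mul, map_mul,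
      Complex.conj_ofReal, ← Complex.exp_conj]
    congr 3
    rw [map_mul, map_mul, Complex.conj_I, Complex.conj_ofReal, Complex.conj_ofReal]
    push_cast
    ring

/-- the main term -/
theorem main_int {w : ℝ → ℝ} (hq : Ker δ M (qh w)) {L : ℝ} (hL : 0 < L) (u t : ℝ) :
    Integrable (fun v : ℝ => (qh w v : ℂ) * (cexp (-(I * v * L * t)) *
      ((L : ℂ) * cexp (I * (u + v * L : ℝ) * t) * ((Real.exp (-(u + v * L) ^ 2 / 2) : ℝ) : ℂ)))) ∧
    ∫ v : ℝ, (qh w v : ℂ) * (cexp (-(I * v * L * t)) *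
      ((L : ℂ) * cexp (I * (u + v * L : ℝ) * t) * ((Real.exp (-(u + v * L) ^ 2 / 2) : ℝ) : ℂ))) =
      (Real.sqrt (2 * Real.pi) : ℂ) * cexp (I * u * t) * (QL w L u : ℂ) := by
  constructor
  · refine hq.int ?_
    fun_prop
  have h1 : ∀ v : ℝ, (qh w v : ℂ) * (cexp (-(I * v * L * t)) *
      ((L : ℂ) * cexp (I * (u + v * L : ℝ) * t) * ((Real.exp (-(u + v * L) ^ 2 / 2) : ℝ) : ℂ))) =
      ((L : ℂ) * cexp (I * u * t)) * ((qh w (-v) * Real.exp (-(u - (-v) * L) ^ 2 / 2) : ℝ) : ℂ) := by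
    intro v
    have h2 : cexp (-(I * v * L * t)) * cexp (I * (u + v * L : ℝ) * t) = cexp (I * u * t) := by
      rw [← Complex.exp_add]
      congr 1
      push_cast
      ring
    have h3 : u - (-v) * L = u + v * L := by ring
    rw [h3, hq.even, ← h2]
    push_cast
    ring
  simp_rw [h1]
  have h6 : ∫ v : ℝ, ((qh w (-v) * Real.exp (-(u - (-v) * L) ^ 2 / 2) : ℝ) : ℂ) =
      ((∫ v : ℝ, qh w (-v) * Real.exp (-(u - (-v) * L) ^ 2 / 2) : ℝ) : ℂ) := integral_ofReal
  rw [integral_const_mul, h6, integral_neg_eq_self (fun v : ℝ => qh w v * Real.exp (-(u - v * L) ^ 2 / 2))]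
  have hpi : Real.sqrt (2 * Real.pi) ≠ 0 := (Real.sqrt_pos.2 (by positivity)).ne'
  have h4 : ((L * ∫ v : ℝ, qh w v * Real.exp (-(u - v * L) ^ 2 / 2) : ℝ) : ℂ) =
      (Real.sqrt (2 * Real.pi) : ℂ) * (QL w L u : ℂ) := by
    unfold QL
    rw [← Complex.ofReal_mul]
    congr 1
    generalize (∫ v : ℝ, qh w v * Real.exp (-(u - v * L) ^ 2 / 2)) = J
    field_simp
  rw [Complex.ofReal_mul] at h4
  calc _ = cexp (I * u * t) * ((L : ℂ) * ((∫ v : ℝ, qh w v * Real.exp (-(u - v * L) ^ 2 / 2) : ℝ) : ℂ)) := by ring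
    _ = _ := by rw [h4]; ring

theorem exp_int_L {L : ℝ} (hL : 0 < L) (u : ℝ) : Integrable (fun v : ℝ => Real.exp (-|u + v * L|)) ∧
    ∫ v : ℝ, Real.exp (-|u + v * L|) = 2 / L := by
  obtain ⟨h1, h2⟩ := int_exp_abs
  have h3 : Integrable fun x : ℝ => Real.exp (-|u + x|) := h1.comp_add_left u
  constructor
  · exact h3.comp_mul_right' hL.ne'
  · rw [Measure.integral_comp_mul_right (fun x : ℝ => Real.exp (-|u + x|)) L, abs_of_pos (inv_pos.2 hL),
      integral_add_left_eq_self (fun x : ℝ => Real.exp (-|x|)) u, h2, smul_eq_mul]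
    field_simp

theorem t_EFL : J_EFL := by
  intro hEFF hQH hQLF δ H C K w hδ hδ8 hH hC hK hw
  obtain ⟨CE, T₀, hCE, hT₀, hEFF⟩ := hEFF
  obtain ⟨⟨D, hlip⟩, heven, hsupp, ho, -, -⟩ := hQH δ H C K w hδ (by linarith) hH hC hK hw
  have hcont : Continuous (qh w) := by
    rw [Metric.continuous_iff]
    intro x ε hε
    refine ⟨ε / (|D| + 1), by positivity, fun y hy => ?_⟩
    rw [Real.dist_eq] at hy ⊢
    rw [lt_div_iff₀ (by positivity)] at hy
    have h1 := hlip y x
    have h2 : D * |y - x| ≤ |D| * |y - x| := mul_le_mul_of_nonneg_right (le_abs_self D) (abs_nonneg _)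
    have h3 := abs_nonneg (y - x)
    nlinarith
  set M : ℝ := |D| * (4 * δ) with hM
  have hM0 : 0 ≤ M := by positivity
  have hbd : ∀ v, |qh w v| ≤ M := by
    intro v
    by_cases hv : 2 * δ ≤ |v|
    · rw [hsupp v hv, abs_zero]
      exact hM0
    · rw [not_le] at hv
      have h1 := hlip v (2 * δ)
      have h2 : qh w (2 * δ) = 0 := hsupp _ (by rw [abs_of_pos (by linarith)])
      rw [h2, sub_zero] at h1
      have h3 : |v - 2 * δ| ≤ 4 * δ := by
        have := abs_lt.1 hv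
        rw [abs_le]
        constructor <;> linarith [this.1, this.2]
      calc |qh w v| ≤ D * |v - 2 * δ| := h1
        _ ≤ |D| * |v - 2 * δ| := mul_le_mul_of_nonneg_right (le_abs_self D) (abs_nonneg _)
        _ ≤ |D| * (4 * δ) := mul_le_mul_of_nonneg_left h3 (abs_nonneg _)
  have hq : Ker δ M (qh w) := ⟨hcont, heven, hsupp, hbd⟩
  refine ⟨M * CE * 2, by positivity, ?_⟩
  filter_upwards [eventually_ge_atTop T₀, eventually_ge_atTop (10 : ℝ), Real.tendsto_log_atTop.eventually_ge_atTop 1]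
    with T hT hT10 hL1 u t hu0 hu1 ht1 ht2
  set L := Real.log T with hL
  have hL0 : 0 < L := by linarith
  obtain ⟨z1, z2⟩ := Zt_int hq ho (T := T) (by linarith) u t
  rw [← hL] at z1 z2
  obtain ⟨m1, m2⟩ := main_int hq hL0 u t
  obtain ⟨p1, p2⟩ := PP_int hM0 hq hL0 u t
  obtain ⟨c1, c2⟩ := PPc_int hM0 hq hL0 u t
  obtain ⟨x1, x2⟩ := exp_int_L hL0 u
  set κ : ℂ := ((1 / Real.sqrt (2 * Real.pi) : ℝ) : ℂ) with hκ
  have hκ1 : κ * (Real.sqrt (2 * Real.pi) : ℂ) = 1 := by
    have hpi : Real.sqrt (2 * Real.pi) ≠ 0 := (Real.sqrt_pos.2 (by positivity)).ne'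
    rw [hκ, ← Complex.ofReal_mul, one_div, inv_mul_cancel₀ hpi, Complex.ofReal_one]
  set f1 : ℝ → ℂ := fun v => (qh w v : ℂ) * (cexp (-(I * v * L * t)) *
      H370.AA riemannZeta (T + 1) (2 * T - 1) (u + v * L) t) with hf1
  set f2 : ℝ → ℂ := fun v => (qh w v : ℂ) * (cexp (-(I * v * L * t)) *
      ((L : ℂ) * cexp (I * (u + v * L : ℝ) * t) * ((Real.exp (-(u + v * L) ^ 2 / 2) : ℝ) : ℂ))) with hf2
  set f3 : ℝ → ℂ := fun v => (qh w v : ℂ) * (cexp (-(I * v * L * t)) * H370.PP H370.A2.lamC (u + v * L) t) with hf3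
  set f4 : ℝ → ℂ := fun v => (qh w v : ℂ) * (cexp (-(I * v * L * t)) *
      conj (H370.PP H370.A2.lamC (-(u + v * L)) t)) with hf4
  have i23 : Integrable fun v => f2 v - f3 v := m1.sub p1
  have i234 : Integrable fun v => f2 v - f3 v - f4 v := i23.sub c1
  have i5 : Integrable fun v => κ * (f2 v - f3 v - f4 v) := i234.const_mul κ
  set E : ℝ → ℂ := fun v => f1 v - κ * (f2 v - f3 v - f4 v) with hE
  have hEint : ∫ v, E v = Zt w T u t - cexp (I * u * t) * ((QL w L u : ℂ) - PL w L u t - conj (PL w L (-u) t)) := by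
    have e1 : ∫ v, E v = (∫ v, f1 v) - κ * ((∫ v, f2 v) - (∫ v, f3 v) - ∫ v, f4 v) := by
      rw [← integral_sub m1 p1, ← integral_sub i23 c1, ← integral_const_mul, ← integral_sub z1 i5]
    rw [e1, z2, m2, p2, c2]
    linear_combination (-(cexp (I * u * t) * ((QL w L u : ℂ) - PL w L u t - conj (PL w L (-u) t)))) * hκ1
  have hEle : ∀ v, ‖E v‖ ≤ M * CE * Real.exp (-|u + v * L|) := by
    intro v
    by_cases hv : 2 * δ ≤ |v|
    · have h1 : E v = 0 := by
        simp only [hE, hf1, hf2, hf3, hf4]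
        rw [hsupp v hv]
        simp
      rw [h1, norm_zero]
      positivity
    · rw [not_le] at hv
      have h2 : |u + v * L| ≤ L := by
        have h3 := abs_lt.1 hv
        have h4 : v * L ≤ 2 * δ * L := mul_le_mul_of_nonneg_right h3.2.le hL0.le
        have h5 : -(2 * δ) * L ≤ v * L := mul_le_mul_of_nonneg_right h3.1.le hL0.le
        rw [abs_le]
        constructor
        · nlinarith
        · nlinarith
      have h6 := hEFF T hT (u + v * L) t h2 ht1 ht2
      have h7 : E v = (qh w v : ℂ) * (cexp (-(I * v * L * t)) * (H370.AA riemannZeta (T + 1) (2 * T - 1) (u + v * L) t -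
          κ * ((L : ℂ) * cexp (I * (u + v * L : ℝ) * t) * ((Real.exp (-(u + v * L) ^ 2 / 2) : ℝ) : ℂ) -
            H370.PP H370.A2.lamC (u + v * L) t - conj (H370.PP H370.A2.lamC (-(u + v * L)) t)))) := by
        simp only [hE, hf1, hf2, hf3, hf4]
        ring
      have h8 : ‖cexp (-(I * v * L * t))‖ = 1 := by
        have : -(I * v * L * t) = ((-(v * L * t) : ℝ) : ℂ) * I := by push_cast; ring
        rw [this, Complex.norm_exp_ofReal_mul_I]
      rw [h7, norm_mul, norm_mul, h8, one_mul, Complex.norm_real, Real.norm_eq_abs]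
      refine (mul_le_mul (hbd v) h6 (norm_nonneg _) hM0).trans (le_of_eq ?_)
      ring
  have hfin : cexp (-(I * u * t)) * Zt w T u t - ((QL w L u : ℂ) - PL w L u t - conj (PL w L (-u) t)) =
      cexp (-(I * u * t)) * ∫ v, E v := by
    rw [hEint]
    have h9 : cexp (-(I * u * t)) * cexp (I * u * t) = 1 := by
      rw [← Complex.exp_add]; simp
    linear_combination ((QL w L u : ℂ) - PL w L u t - conj (PL w L (-u) t)) * h9
  rw [hfin, norm_mul]
  have h8 : ‖cexp (-(I * u * t))‖ = 1 := by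
    have : -(I * u * t) = ((-(u * t) : ℝ) : ℂ) * I := by push_cast; ring
    rw [this, Complex.norm_exp_ofReal_mul_I]
  rw [h8, one_mul]
  refine (norm_integral_le_of_norm_le (x1.const_mul (M * CE)) (Eventually.of_forall hEle)).trans (le_of_eq ?_)
  rw [integral_const_mul, x2]
  ring

end

end

end Pool.Agent.Q61.UM
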