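import Pool.Agent.Q61.UM.SAMPb

set_option autoImplicit false

/-! Project UM2 (helper97), job SAMP: from windows to the zeros. -/

namespace Pool.Agent.Q61.UM

open Filter Topology MeasureTheory Complex
open Pool.Agent.Q97.UM

noncomputable section

open Classical in
/-- indicator of the simple zeros on the line -/
def ws (s : ℂ) : ℝ := if s.re = 1 / 2 ∧ mz s = 1 then 1 else 0

open Classical in
/-- indicator of the zeros with `β ≤ 1/2` -/
def wd (s : ℂ) : ℝ := if s.re ≤ 1 / 2 then 1 else 0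

open Classical in
theorem Nsw_eq (T r t : ℝ) : Nsw T r t = ∑ s ∈ (ZT T).filter (fun s => |s.im - t| ≤ r), ws s := by
  unfold Nsw ws
  rw [Finset.sum_boole, Finset.filter_filter]
  congr 2
  ext s
  simp only [Finset.mem_filter]
  tauto

open Classical in
theorem Ndw_eq (T r t : ℝ) : Ndw T r t = ∑ s ∈ (ZT T).filter (fun s => |s.im - t| ≤ r), wd s := by
  unfold Ndw wd
  rw [Finset.sum_boole, Finset.filter_filter]
  congr 2
  ext s
  simp only [Finset.mem_filter]
  tauto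

open Classical in
theorem sum_ws (F : Finset ℂ) (f : ℝ → ℝ) : ∑ s ∈ F.filter (fun s => s.re = 1 / 2 ∧ mz s = 1), f s.im = ∑ s ∈ F, ws s * f s.im := by
  rw [Finset.sum_filter]
  refine Finset.sum_congr rfl fun s _ => ?_
  unfold ws
  split_ifs <;> simp

open Classical in
theorem sum_wd (F : Finset ℂ) (f : ℝ → ℝ) : ∑ s ∈ F.filter (fun s => s.re ≤ 1 / 2), f s.im = ∑ s ∈ F, wd s * f s.im := by
  rw [Finset.sum_filter]
  refine Finset.sum_congr rfl fun s _ => ?_
  unfold wd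
  split_ifs <;> simp

open Classical in
/-- the comparison for one weight -/
theorem samp_cmp (hD : S_DPM) {ε C θ H T : ℝ} (hε : 0 < ε) (hC : 0 < C)
    (hcnt : ∀ t : ℝ, 3 ≤ t → (H370.NN riemannZeta (t - 1) (t + 1) : ℝ) ≤ C * Real.log t)
    (hθ : 0 < θ) (hθ1 : θ ≤ 1 / 40) (hH : 0 < H) (hθH : θ * (128 * H) ≤ ε)
    (hT : 4 ≤ T) (hL1 : 1 ≤ Real.log T) (hLH : H ≤ Real.log T) (hLT : 4 * Real.log T ≤ T)
    (hout : 12 * C * Real.log T * T ^ (1 / 40 : ℝ) ≤ ε / 32 * T) {N : ℕ} (hN : (N : ℝ) ≤ T ^ θ) (b : ℕ → ℂ)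
    (hW : ∀ b : ℕ → ℂ, |(∫ t in (T + 2 * Real.log T)..(2 * T - 2 * Real.log T), Nw T (H / Real.log T) t * ‖dp N b t‖ ^ 2) -
      (H / Real.pi) * (T * N2 N b)| ≤ 1 * (H / Real.pi) * (T * N2 N b))
    {ω : ℂ → ℝ} (hω0 : ∀ s ∈ H370.Zf riemannZeta T (2 * T), 0 ≤ ω s)
    (hωm : ∀ s ∈ H370.Zf riemannZeta T (2 * T), ω s ≤ mz s) :
    |(∫ t in (T + 2 * Real.log T)..(2 * T - 2 * Real.log T),
        (∑ s ∈ (ZT T).filter (fun s => |s.im - t| ≤ H / Real.log T), ω s) * ‖dp N b t‖ ^ 2) -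
      2 * (H / Real.log T) * ∑ s ∈ H370.Zf riemannZeta T (2 * T), ω s * ‖dp N b s.im‖ ^ 2| ≤
      2 * (H / Real.log T) * (ε / 16 * Real.log T * (T * N2 N b)) := by
  have hF := H370.good_zeta
  set L : ℝ := Real.log T with hL
  have hL0 : 0 < L := by linarith
  have hT0 : 0 < T := by linarith
  set r : ℝ := H / L with hr
  have hr0 : 0 < r := by positivity
  have hr1 : r ≤ 1 := by rw [hr, div_le_one hL0]; exact hLH
  have hc : ∀ c : ℕ → ℂ, Continuous (dp N c) := fun c => (hD.2.2 N c 0).2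
  set lam : ℝ := θ * L with hlam
  have hlam0 : 0 < lam := by positivity
  have hS0 := N2_nonneg N b
  have hlT : Real.log T ≤ T := by linarith
  have hAB : T + 2 * L ≤ 2 * T - 2 * L := by linarith
  have hkc : Continuous fun t => lam * ‖dp N b t‖ ^ 2 + lam⁻¹ * ‖dp N (bd b) t‖ ^ 2 :=
    (((hc b).norm.pow 2).const_mul _).add (((hc (bd b)).norm.pow 2).const_mul _)
  have hsub : ZT T ⊆ H370.Zf riemannZeta T (2 * T) := by
    intro s hs
    unfold ZT at hs
    rw [H370.mem_Zf hF (by linarith)] at hs ⊢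
    obtain ⟨a1, a2, a3, a4, a5⟩ := hs
    exact ⟨a1, a2, by linarith, by linarith, a5⟩
  have hin : ∀ s ∈ H370.Zf riemannZeta T (2 * T), T + 2 * L ≤ s.im - r → s.im + r ≤ 2 * T - 2 * L → s ∈ ZT T := by
    intro s hs h1 h2
    unfold ZT
    rw [H370.mem_Zf hF (by linarith)] at hs ⊢
    obtain ⟨a1, a2, a3, a4, a5⟩ := hs
    exact ⟨a1, a2, by linarith, by linarith, a5⟩
  have core := samp_core hsub (m := fun s => (mz s : ℝ)) hω0 hωm hAB hr0 (M := N * N2 N b)
    (f := fun t => ‖dp N b t‖ ^ 2) (k := fun t => lam * ‖dp N b t‖ ^ 2 + lam⁻¹ * ‖dp N (bd b) t‖ ^ 2)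
    ((hc b).norm.pow 2) hkc (fun t => by positivity) (fun t => (hD.2.2 N b t).1) (fun t => by positivity)
    (dp_var hD N b hlam0) hin
  refine core.trans (mul_le_mul_of_nonneg_left ?_ (by positivity))
  have ho := outer_sum hC hcnt (T := T) (L := L) (r := r) hL hL1 hr1 hT hLT
  -- the integral of `k`
  have hNwi : ∀ g : ℝ → ℝ, Continuous g → IntervalIntegrable (fun t => Nw T r t * g t) volume (T + 2 * L) (2 * T - 2 * L) := by
    intro g hg
    have h1 : (fun t => Nw T r t * g t) = fun t => ∑ s ∈ ZT T, (mz s : ℝ) * Set.indicator (Set.Icc (s.im - r) (s.im + r)) g t := by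
      funext t
      unfold Nw
      rw [Finset.sum_filter, Finset.sum_mul]
      refine Finset.sum_congr rfl fun s _ => ?_
      by_cases h : |s.im - t| ≤ r
      · rw [if_pos h, Set.indicator_of_mem ((mem_win _ _ _).2 h)]
      · rw [if_neg h, Set.indicator_of_notMem (fun h' => h ((mem_win _ _ _).1 h'))]
        ring
    rw [h1]
    have h2 := IntervalIntegrable.sum (μ := volume) (a := T + 2 * L) (b := 2 * T - 2 * L) (ZT T)
      (f := fun s t => (mz s : ℝ) * Set.indicator (Set.Icc (s.im - r) (s.im + r)) g t)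
      fun s _ => (ind_ii hg _ _ _ _).const_mul _
    refine h2.congr ?_
    intro t _
    simp only [Finset.sum_apply]
  have hI : (∫ t in (T + 2 * L)..(2 * T - 2 * L), (∑ s ∈ (ZT T).filter (fun s => |s.im - t| ≤ r), (mz s : ℝ)) *
      (lam * ‖dp N b t‖ ^ 2 + lam⁻¹ * ‖dp N (bd b) t‖ ^ 2)) =
      lam * (∫ t in (T + 2 * L)..(2 * T - 2 * L), Nw T r t * ‖dp N b t‖ ^ 2) +
      lam⁻¹ * (∫ t in (T + 2 * L)..(2 * T - 2 * L), Nw T r t * ‖dp N (bd b) t‖ ^ 2) := by
    have i1 : IntervalIntegrable (fun t => lam * (Nw T r t * ‖dp N b t‖ ^ 2)) volume (T + 2 * L) (2 * T - 2 * L) :=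
      (hNwi _ ((hc b).norm.pow 2)).const_mul _
    have i2 : IntervalIntegrable (fun t => lam⁻¹ * (Nw T r t * ‖dp N (bd b) t‖ ^ 2)) volume (T + 2 * L) (2 * T - 2 * L) :=
      (hNwi _ ((hc (bd b)).norm.pow 2)).const_mul _
    rw [← intervalIntegral.integral_const_mul, ← intervalIntegral.integral_const_mul, ← intervalIntegral.integral_add i1 i2]
    congr 1
    funext t
    unfold Nw
    ring
  rw [hI]
  have hπ : 3 < Real.pi := Real.pi_gt_three
  have hNL : N2 N (bd b) ≤ lam ^ 2 * N2 N b := by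
    refine (N2_bd N b).trans (mul_le_mul_of_nonneg_right ?_ hS0)
    rcases Nat.eq_zero_or_pos N with h0 | h0
    · rw [h0]; simp; positivity
    · have h1 : (1 : ℝ) ≤ N := by exact_mod_cast h0
      have h2 : Real.log N ≤ lam := by
        rw [hlam, hL, ← Real.log_rpow hT0]
        exact Real.log_le_log (by linarith) hN
      have h3 := Real.log_nonneg h1
      gcongr
  have hW1 : (∫ t in (T + 2 * L)..(2 * T - 2 * L), Nw T r t * ‖dp N b t‖ ^ 2) ≤ 2 * (H / Real.pi) * (T * N2 N b) := by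
    have := (abs_le.1 (hW b)).2
    linarith
  have hW2 : (∫ t in (T + 2 * L)..(2 * T - 2 * L), Nw T r t * ‖dp N (bd b) t‖ ^ 2) ≤
      2 * (H / Real.pi) * (T * (lam ^ 2 * N2 N b)) := by
    have h1 := (abs_le.1 (hW (bd b))).2
    have h2 : 2 * (H / Real.pi) * (T * N2 N (bd b)) ≤ 2 * (H / Real.pi) * (T * (lam ^ 2 * N2 N b)) := by gcongr
    linarith
  have e1 : lam * (∫ t in (T + 2 * L)..(2 * T - 2 * L), Nw T r t * ‖dp N b t‖ ^ 2) +
      lam⁻¹ * (∫ t in (T + 2 * L)..(2 * T - 2 * L), Nw T r t * ‖dp N (bd b) t‖ ^ 2) ≤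
      ε / 32 * L * (T * N2 N b) := by
    calc lam * (∫ t in (T + 2 * L)..(2 * T - 2 * L), Nw T r t * ‖dp N b t‖ ^ 2) +
      lam⁻¹ * (∫ t in (T + 2 * L)..(2 * T - 2 * L), Nw T r t * ‖dp N (bd b) t‖ ^ 2) ≤
        lam * (2 * (H / Real.pi) * (T * N2 N b)) + lam⁻¹ * (2 * (H / Real.pi) * (T * (lam ^ 2 * N2 N b))) := by
          gcongr
      _ = (4 * H * θ / Real.pi) * L * (T * N2 N b) := by
          rw [hlam]
          field_simp
          ring
      _ ≤ ε / 32 * L * (T * N2 N b) := by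
          have h3 : 4 * H * θ / Real.pi ≤ ε / 32 := by
            rw [div_le_div_iff₀ (by positivity) (by norm_num)]
            nlinarith
          have h4 : 0 ≤ L * (T * N2 N b) := by positivity
          calc (4 * H * θ / Real.pi) * L * (T * N2 N b) = (4 * H * θ / Real.pi) * (L * (T * N2 N b)) := by ring
            _ ≤ ε / 32 * (L * (T * N2 N b)) := mul_le_mul_of_nonneg_right h3 h4
            _ = ε / 32 * L * (T * N2 N b) := by ring
  have e2 : (N : ℝ) * N2 N b * ∑ s ∈ (H370.Zf riemannZeta T (2 * T)).filter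
      (fun s => ¬ (T + 2 * L ≤ s.im - r ∧ s.im + r ≤ 2 * T - 2 * L)), (mz s : ℝ) ≤ ε / 32 * L * (T * N2 N b) := by
    have h1 : (N : ℝ) ≤ T ^ (1 / 40 : ℝ) := hN.trans (Real.rpow_le_rpow_of_exponent_le (by linarith) hθ1)
    calc (N : ℝ) * N2 N b * (∑ s ∈ (H370.Zf riemannZeta T (2 * T)).filter
        (fun s => ¬ (T + 2 * L ≤ s.im - r ∧ s.im + r ≤ 2 * T - 2 * L)), (mz s : ℝ)) ≤
        T ^ (1 / 40 : ℝ) * N2 N b * (12 * C * L ^ 2) := by
          gcongr
      _ = (12 * C * L * T ^ (1 / 40 : ℝ)) * (L * N2 N b) := by ring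
      _ ≤ (ε / 32 * T) * (L * N2 N b) := mul_le_mul_of_nonneg_right hout (by positivity)
      _ = ε / 32 * L * (T * N2 N b) := by ring
  linarith

theorem t_SAMP : J_SAMP := by
  classical
  intro hD _ hWIN ε hε
  have hF := H370.good_zeta
  obtain ⟨C, hC, hcnt⟩ := H370.zcount hF
  obtain ⟨H₀, hH1, hH₀⟩ := hWIN (min (ε / 2) 1) (by positivity)
  obtain ⟨θ₀, hθ₀, hθ₁, hev⟩ := hH₀ H₀ le_rfl
  set H : ℝ := H₀ with hHdef
  have hH : 0 < H := by linarith
  set θ : ℝ := min θ₀ (ε / (128 * H)) with hθ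
  have hθ0 : 0 < θ := by positivity
  have hθ40 : θ ≤ 1 / 40 := (min_le_left _ _).trans hθ₁
  have hθH : θ * (128 * H) ≤ ε := by
    have := min_le_right θ₀ (ε / (128 * H))
    rw [← hθ, le_div_iff₀ (by positivity)] at this
    exact this
  refine ⟨θ, hθ0, hθ40, ?_⟩
  have hlog : ∀ᶠ T : ℝ in atTop, 12 * C * Real.log T ≤ ε / 32 * T ^ (39 / 40 : ℝ) := by
    have h1 := isLittleO_log_rpow_atTop (show (0 : ℝ) < 39 / 40 by norm_num)
    have h2 := h1.bound (show 0 < ε / 32 / (12 * C) by positivity)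
    filter_upwards [h2, eventually_ge_atTop (1 : ℝ)] with T h hT
    rw [Real.norm_eq_abs, Real.norm_eq_abs, abs_of_nonneg (Real.log_nonneg hT), abs_of_nonneg (by positivity)] at h
    have h3 : 12 * C * Real.log T ≤ 12 * C * (ε / 32 / (12 * C) * T ^ (39 / 40 : ℝ)) := by gcongr
    refine h3.trans (le_of_eq ?_)
    field_simp
  have hlog2 : ∀ᶠ T : ℝ in atTop, 4 * Real.log T ≤ T := by
    have h2 := (Real.isLittleO_log_id_atTop).bound (show (0 : ℝ) < 1 / 4 by norm_num)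
    filter_upwards [h2, eventually_ge_atTop (1 : ℝ)] with T h hT
    simp only [id] at h
    rw [Real.norm_eq_abs, Real.norm_eq_abs, abs_of_nonneg (Real.log_nonneg hT), abs_of_nonneg (by positivity)] at h
    linarith
  filter_upwards [hev, hlog, hlog2, eventually_ge_atTop (4 : ℝ), Real.tendsto_log_atTop.eventually_ge_atTop 1,
    Real.tendsto_log_atTop.eventually_ge_atTop H] with T hev hlog hLT hT hL1 hLH
  intro N hN b
  have hT0 : 0 < T := by linarith
  have hN' : (N : ℝ) ≤ T ^ θ₀ := hN.trans (Real.rpow_le_rpow_of_exponent_le (by linarith) (min_le_left _ _))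
  have hout : 12 * C * Real.log T * T ^ (1 / 40 : ℝ) ≤ ε / 32 * T := by
    calc 12 * C * Real.log T * T ^ (1 / 40 : ℝ) ≤ ε / 32 * T ^ (39 / 40 : ℝ) * T ^ (1 / 40 : ℝ) := by gcongr
      _ = ε / 32 * (T ^ (39 / 40 : ℝ) * T ^ (1 / 40 : ℝ)) := by ring
      _ = ε / 32 * T := by
          rw [← Real.rpow_add hT0]
          norm_num
  have hπ : 3 < Real.pi := Real.pi_gt_three
  have hπ4 : Real.pi < 4 := Real.pi_lt_four
  have hW : ∀ b : ℕ → ℂ, |(∫ t in (T + 2 * Real.log T)..(2 * T - 2 * Real.log T), Nw T (H / Real.log T) t * ‖dp N b t‖ ^ 2) -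
      (H / Real.pi) * (T * N2 N b)| ≤ 1 * (H / Real.pi) * (T * N2 N b) := by
    intro b
    refine (hev N hN' b).2.2.trans ?_
    have h1 := N2_nonneg N b
    have h2 : 0 ≤ H / Real.pi * (T * N2 N b) := by positivity
    have h3 : min (ε / 2) 1 ≤ 1 := min_le_right _ _
    rw [mul_assoc, mul_assoc]
    exact mul_le_mul_of_nonneg_right h3 h2
  have hS0 := N2_nonneg N b
  set L : ℝ := Real.log T with hL
  have hL0 : 0 < L := by linarith
  set S : ℝ := T * N2 N b with hS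
  have hS0 : 0 ≤ S := by positivity
  obtain ⟨w1, w2, w3⟩ := hev N hN' b
  have hmz : ∀ s ∈ H370.Zf riemannZeta T (2 * T), (1 : ℝ) ≤ mz s := by
    intro s hs
    rw [H370.mem_Zf hF (by linarith)] at hs
    have := H370.Loc.mult_pos' hF (show 0 < s.im by linarith [hs.2.2.1]) hs.2.2.2.2
    exact_mod_cast this
  have hε' : min (ε / 2) 1 ≤ ε / 2 := min_le_left _ _
  have key : ∀ X Y : ℝ, |X - 2 * (H / L) * Y| ≤ 2 * (H / L) * (ε / 16 * L * S) → |L / (2 * H) * X - Y| ≤ ε / 16 * L * S := by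
    intro X Y h
    have e1 : L / (2 * H) * X - Y = L / (2 * H) * (X - 2 * (H / L) * Y) := by
      field_simp
    have e2 : ε / 16 * L * S = L / (2 * H) * (2 * (H / L) * (ε / 16 * L * S)) := by
      field_simp
    rw [e1, e2, abs_mul, abs_of_pos (show 0 < L / (2 * H) by positivity)]
    exact mul_le_mul_of_nonneg_left h (by positivity)
  have hLH2 : ∀ c : ℝ, L / (2 * H) * (c * (H / Real.pi) * S) = c * (L / (2 * Real.pi)) * S := by
    intro c
    field_simp
  have hLS : 0 ≤ L * S := by positivity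
  have hpi1 : ε / 16 * L * S ≤ ε / 2 * (L / (2 * Real.pi)) * S := by
    have h1 : ε / 16 ≤ ε / 2 / (2 * Real.pi) := by
      rw [le_div_iff₀ (by positivity)]
      nlinarith
    calc ε / 16 * L * S = ε / 16 * (L * S) := by ring
      _ ≤ ε / 2 / (2 * Real.pi) * (L * S) := mul_le_mul_of_nonneg_right h1 hLS
      _ = ε / 2 * (L / (2 * Real.pi)) * S := by ring
  refine ⟨?_, ?_, ?_⟩
  · have h0 := samp_cmp hD hε hC hcnt hθ0 hθ40 hH hθH hT hL1 hLH hLT hout hN b hW (ω := ws)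
      (fun s _ => by unfold ws; split_ifs <;> norm_num)
      (fun s hs => by
        have := hmz s hs
        unfold ws
        split_ifs
        · exact this
        · linarith)
    simp_rw [← Nsw_eq] at h0
    rw [← sum_ws (H370.Zf riemannZeta T (2 * T)) (fun x => ‖dp N b x‖ ^ 2)] at h0
    have h1 := (abs_le.1 (key _ _ h0)).2
    have h2 : L / (2 * H) * ((2 - H370.cMTinv - min (ε / 2) 1) * (H / Real.pi) * S) ≤ L / (2 * H) *
      ∫ t in (T + 2 * L)..(2 * T - 2 * L), Nsw T (H / L) t * ‖dp N b t‖ ^ 2 := mul_le_mul_of_nonneg_left w1 (by positivity)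
    rw [hLH2] at h2
    have h3 : (2 - H370.cMTinv - ε / 2) * (L / (2 * Real.pi)) * S ≤ (2 - H370.cMTinv - min (ε / 2) 1) * (L / (2 * Real.pi)) * S := by
      gcongr
    have h4 : (2 - H370.cMTinv - ε) * (L / (2 * Real.pi)) * S = (2 - H370.cMTinv - ε / 2) * (L / (2 * Real.pi)) * S -
      ε / 2 * (L / (2 * Real.pi)) * S := by ring
    linarith
  · have h0 := samp_cmp hD hε hC hcnt hθ0 hθ40 hH hθH hT hL1 hLH hLT hout hN b hW (ω := wd)
      (fun s _ => by unfold wd; split_ifs <;> norm_num)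
      (fun s hs => by
        have := hmz s hs
        unfold wd
        split_ifs
        · exact this
        · linarith)
    simp_rw [← Ndw_eq] at h0
    rw [← sum_wd (H370.Zf riemannZeta T (2 * T)) (fun x => ‖dp N b x‖ ^ 2)] at h0
    have h1 := (abs_le.1 (key _ _ h0)).2
    have h2 : L / (2 * H) * (((3 - H370.cMTinv) / 2 - min (ε / 2) 1) * (H / Real.pi) * S) ≤ L / (2 * H) *
      ∫ t in (T + 2 * L)..(2 * T - 2 * L), Ndw T (H / L) t * ‖dp N b t‖ ^ 2 := mul_le_mul_of_nonneg_left w2 (by positivity)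
    rw [hLH2] at h2
    have h3 : ((3 - H370.cMTinv) / 2 - ε / 2) * (L / (2 * Real.pi)) * S ≤
      ((3 - H370.cMTinv) / 2 - min (ε / 2) 1) * (L / (2 * Real.pi)) * S := by
      gcongr
    have h4 : ((3 - H370.cMTinv) / 2 - ε) * (L / (2 * Real.pi)) * S = ((3 - H370.cMTinv) / 2 - ε / 2) * (L / (2 * Real.pi)) * S -
      ε / 2 * (L / (2 * Real.pi)) * S := by ring
    linarith
  · have h0 := samp_cmp hD hε hC hcnt hθ0 hθ40 hH hθH hT hL1 hLH hLT hout hN b hW (ω := fun s => (mz s : ℝ))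
      (fun s _ => Nat.cast_nonneg _) (fun s _ => le_rfl)
    have h0' : |(∫ t in (T + 2 * L)..(2 * T - 2 * L), Nw T (H / L) t * ‖dp N b t‖ ^ 2) -
        2 * (H / L) * ∑ s ∈ H370.Zf riemannZeta T (2 * T), (mz s : ℝ) * ‖dp N b s.im‖ ^ 2| ≤
        2 * (H / L) * (ε / 16 * L * S) := h0
    have h1 := abs_le.1 (key _ _ h0')
    have h2 : |L / (2 * H) * (∫ t in (T + 2 * L)..(2 * T - 2 * L), Nw T (H / L) t * ‖dp N b t‖ ^ 2) -
        L / (2 * Real.pi) * S| ≤ ε / 2 * (L / (2 * Real.pi)) * S := by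
      have e1 : L / (2 * Real.pi) * S = L / (2 * H) * (H / Real.pi * S) := by
        field_simp
      have e2 : ε / 2 * (L / (2 * Real.pi)) * S = L / (2 * H) * (ε / 2 * (H / Real.pi) * S) := (hLH2 _).symm
      rw [e1, e2, ← mul_sub, abs_mul, abs_of_pos (show 0 < L / (2 * H) by positivity)]
      refine mul_le_mul_of_nonneg_left (w3.trans ?_) (by positivity)
      gcongr
    have h3 := abs_le.1 h2
    have h4 : ε / 2 * (L / (2 * Real.pi)) * S ≤ ε / 12 * (L * S) := by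
      have h5 : ε / 2 / (2 * Real.pi) ≤ ε / 12 := by
        rw [div_div, div_le_div_iff_of_pos_left hε (by positivity) (by norm_num)]
        linarith
      calc ε / 2 * (L / (2 * Real.pi)) * S = ε / 2 / (2 * Real.pi) * (L * S) := by ring
        _ ≤ ε / 12 * (L * S) := mul_le_mul_of_nonneg_right h5 hLS
    have h6 : 0 ≤ ε * (L * S) := by positivity
    rw [abs_le]
    constructor <;> nlinarith [h1.1, h1.2, h3.1, h3.2]

end

end Pool.Agent.Q61.UM
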