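import Pool.Agent.Q97.UM.Stm6

set_option autoImplicit false

/-! Project UM2 (helper97), job SAMP: the sampling inequality, abstract part. -/

namespace Pool.Agent.Q61.UM

open Filter Topology MeasureTheory Complex
open Pool.Agent.Q97.UM

noncomputable section

theorem mem_win (γ r t : ℝ) : t ∈ Set.Icc (γ - r) (γ + r) ↔ |γ - t| ≤ r := by
  rw [Set.mem_Icc, abs_le]
  constructor
  · rintro ⟨h1, h2⟩; constructor <;> linarith
  · rintro ⟨h1, h2⟩; constructor <;> linarith

theorem ind_ii {f : ℝ → ℝ} (hf : Continuous f) (c d A B : ℝ) :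
    IntervalIntegrable (Set.indicator (Set.Icc c d) f) volume A B := by
  rw [intervalIntegrable_iff]
  exact (intervalIntegrable_iff.1 (hf.intervalIntegrable A B)).indicator measurableSet_Icc

open Classical in
theorem win_sum {f : ℝ → ℝ} (hf : Continuous f) (F : Finset ℂ) (ω : ℂ → ℝ) (A B r : ℝ) :
    ∫ t in A..B, (∑ s ∈ F.filter (fun s => |s.im - t| ≤ r), ω s) * f t =
      ∑ s ∈ F, ω s * ∫ t in A..B, Set.indicator (Set.Icc (s.im - r) (s.im + r)) f t := by
  have h1 : ∀ t : ℝ, (∑ s ∈ F.filter (fun s => |s.im - t| ≤ r), ω s) * f t =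
      ∑ s ∈ F, ω s * Set.indicator (Set.Icc (s.im - r) (s.im + r)) f t := by
    intro t
    rw [Finset.sum_filter, Finset.sum_mul]
    refine Finset.sum_congr rfl fun s _ => ?_
    by_cases h : |s.im - t| ≤ r
    · rw [if_pos h, Set.indicator_of_mem ((mem_win _ _ _).2 h)]
    · rw [if_neg h, Set.indicator_of_notMem (fun h' => h ((mem_win _ _ _).1 h'))]
      ring
  simp_rw [h1]
  rw [intervalIntegral.integral_finsetSum fun s _ => (ind_ii hf _ _ _ _).const_mul _]
  refine Finset.sum_congr rfl fun s _ => ?_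
  rw [intervalIntegral.integral_const_mul]

theorem ind_in {f : ℝ → ℝ} {A B c d : ℝ} (h1 : A ≤ c) (h2 : c ≤ d) (h3 : d ≤ B) :
    ∫ t in A..B, Set.indicator (Set.Icc c d) f t = ∫ t in c..d, f t := by
  rw [intervalIntegral.integral_of_le (by linarith), intervalIntegral.integral_of_le h2,
    setIntegral_indicator measurableSet_Icc]
  apply setIntegral_congr_set
  have e1 : (Set.Ioc A B ∩ Set.Icc c d : Set ℝ) =ᵐ[volume] (Set.Icc A B ∩ Set.Icc c d : Set ℝ) :=
    Ioc_ae_eq_Icc.inter (ae_eq_refl _)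
  have e2 : (Set.Icc A B ∩ Set.Icc c d : Set ℝ) = Set.Icc c d := by
    rw [Set.inter_eq_right]
    exact Set.Icc_subset_Icc h1 h3
  rw [e2] at e1
  exact e1.trans Ioc_ae_eq_Icc.symm

theorem ind_le {f : ℝ → ℝ} (hf : Continuous f) {M A B c d : ℝ} (hAB : A ≤ B) (hcd : c ≤ d) (h0 : ∀ t, 0 ≤ f t)
    (hM : ∀ t, f t ≤ M) :
    0 ≤ ∫ t in A..B, Set.indicator (Set.Icc c d) f t ∧ ∫ t in A..B, Set.indicator (Set.Icc c d) f t ≤ (d - c) * M := by
  constructor
  · exact intervalIntegral.integral_nonneg hAB fun t _ => Set.indicator_nonneg (fun t _ => h0 t) t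
  · rw [intervalIntegral.integral_of_le hAB, setIntegral_indicator measurableSet_Icc]
    have h1 : ∫ t in Set.Ioc A B ∩ Set.Icc c d, f t ≤ ∫ t in Set.Icc c d, f t := by
      apply setIntegral_mono_set hf.integrableOn_Icc
      · exact Eventually.of_forall fun t => h0 t
      · exact (Set.inter_subset_right).eventuallyLE
    have h2 : ∫ t in Set.Icc c d, f t ≤ ∫ t in Set.Icc c d, M :=
      setIntegral_mono hf.integrableOn_Icc (continuous_const.integrableOn_Icc) hM
    refine h1.trans (h2.trans (le_of_eq ?_))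
    rw [setIntegral_const, Measure.real, Real.volume_Icc, ENNReal.toReal_ofReal (by linarith), smul_eq_mul]

open Classical in
theorem samp_core {F0 F : Finset ℂ} (hFF : F ⊆ F0) {m ω : ℂ → ℝ} (hω0 : ∀ s ∈ F0, 0 ≤ ω s)
    (hωm : ∀ s ∈ F0, ω s ≤ m s) {A B r M : ℝ} (hAB : A ≤ B) (hr : 0 < r) {f k : ℝ → ℝ} (hf : Continuous f)
    (hk : Continuous k) (hf0 : ∀ t, 0 ≤ f t) (hfM : ∀ t, f t ≤ M) (hk0 : ∀ t, 0 ≤ k t)
    (hfk : ∀ x y : ℝ, |f y - f x| ≤ |∫ t in x..y, k t|)
    (hin : ∀ s ∈ F0, A ≤ s.im - r → s.im + r ≤ B → s ∈ F) :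
    |(∫ t in A..B, (∑ s ∈ F.filter (fun s => |s.im - t| ≤ r), ω s) * f t) - 2 * r * ∑ s ∈ F0, ω s * f s.im| ≤
      2 * r * ((∫ t in A..B, (∑ s ∈ F.filter (fun s => |s.im - t| ≤ r), m s) * k t) +
        M * ∑ s ∈ F0.filter (fun s => ¬ (A ≤ s.im - r ∧ s.im + r ≤ B)), m s) := by
  rw [win_sum hf, win_sum hk]
  set a : ℂ → ℝ := fun s => ∫ t in A..B, Set.indicator (Set.Icc (s.im - r) (s.im + r)) f t with ha
  set b : ℂ → ℝ := fun s => ∫ t in A..B, Set.indicator (Set.Icc (s.im - r) (s.im + r)) k t with hb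
  have hM0 : 0 ≤ M := (hf0 0).trans (hfM 0)
  have hb0 : ∀ s, 0 ≤ b s := fun s =>
    intervalIntegral.integral_nonneg hAB fun t _ => Set.indicator_nonneg (fun t _ => hk0 t) t
  have ha1 : ∀ s, 0 ≤ a s ∧ a s ≤ 2 * r * M := by
    intro s
    obtain ⟨h1, h2⟩ := ind_le hf (M := M) hAB (show s.im - r ≤ s.im + r by linarith) hf0 hfM
    refine ⟨h1, h2.trans (le_of_eq ?_)⟩
    ring
  have hm0 : ∀ s ∈ F0, 0 ≤ m s := fun s hs => (hω0 s hs).trans (hωm s hs)
  have e1 : ∑ s ∈ F, ω s * a s = ∑ s ∈ F0, ω s * (if s ∈ F then a s else 0) := by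
    rw [← Finset.sum_subset hFF]
    · exact Finset.sum_congr rfl fun s hs => by rw [if_pos hs]
    · intro s _ hs
      rw [if_neg hs, mul_zero]
  have e2 : ∑ s ∈ F, m s * b s = ∑ s ∈ F0, m s * (if s ∈ F then b s else 0) := by
    rw [← Finset.sum_subset hFF]
    · exact Finset.sum_congr rfl fun s hs => by rw [if_pos hs]
    · intro s _ hs
      rw [if_neg hs, mul_zero]
  have e3 : M * ∑ s ∈ F0.filter (fun s => ¬ (A ≤ s.im - r ∧ s.im + r ≤ B)), m s =
      ∑ s ∈ F0, (if ¬ (A ≤ s.im - r ∧ s.im + r ≤ B) then M * m s else 0) := by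
    rw [Finset.mul_sum, Finset.sum_filter]
  show |∑ s ∈ F, ω s * a s - 2 * r * ∑ s ∈ F0, ω s * f s.im| ≤ 2 * r * (∑ s ∈ F, m s * b s +
    M * ∑ s ∈ F0.filter (fun s => ¬ (A ≤ s.im - r ∧ s.im + r ≤ B)), m s)
  rw [e1, e2, e3, Finset.mul_sum, ← Finset.sum_sub_distrib, ← Finset.sum_add_distrib, Finset.mul_sum]
  refine (Finset.abs_sum_le_sum_abs _ _).trans (Finset.sum_le_sum fun s hs => ?_)
  have h0 := hω0 s hs
  have h1 := hωm s hs
  have h2 := hm0 s hs
  by_cases hi : A ≤ s.im - r ∧ s.im + r ≤ B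
  · have hsF : s ∈ F := hin s hs hi.1 hi.2
    rw [if_pos hsF, if_pos hsF, if_neg (not_not.2 hi), add_zero]
    have ea : a s = ∫ t in (s.im - r)..(s.im + r), f t := ind_in hi.1 (by linarith) hi.2
    have eb : b s = ∫ t in (s.im - r)..(s.im + r), k t := ind_in hi.1 (by linarith) hi.2
    have h3 : |a s - 2 * r * f s.im| ≤ 2 * r * b s := by
      have h4 : a s - 2 * r * f s.im = ∫ t in (s.im - r)..(s.im + r), (f t - f s.im) := by
        rw [intervalIntegral.integral_sub (hf.intervalIntegrable _ _) (by simp), ea, intervalIntegral.integral_const,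
          smul_eq_mul]
        ring
      rw [h4, ← Real.norm_eq_abs]
      have h5 : ∀ t ∈ Set.uIoc (s.im - r) (s.im + r), ‖f t - f s.im‖ ≤ b s := by
        intro t ht
        rw [Set.uIoc_of_le (by linarith), Set.mem_Ioc] at ht
        rw [Real.norm_eq_abs]
        refine (hfk s.im t).trans ?_
        rw [eb]
        have hki : ∀ x y : ℝ, IntervalIntegrable k volume x y := fun x y => hk.intervalIntegrable x y
        rcases le_total s.im t with h | h
        · rw [abs_of_nonneg (intervalIntegral.integral_nonneg h fun t _ => hk0 t)]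
          exact intervalIntegral.integral_mono_interval (by linarith) h ht.2
            (Eventually.of_forall fun t => hk0 t) (hki _ _)
        · rw [intervalIntegral.integral_symm, abs_neg, abs_of_nonneg (intervalIntegral.integral_nonneg h fun t _ => hk0 t)]
          exact intervalIntegral.integral_mono_interval ht.1.le h (by linarith)
            (Eventually.of_forall fun t => hk0 t) (hki _ _)
      refine (intervalIntegral.norm_integral_le_of_norm_le_const h5).trans (le_of_eq ?_)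
      rw [abs_of_nonneg (by linarith)]
      ring
    have h6 : ω s * a s - 2 * r * (ω s * f s.im) = ω s * (a s - 2 * r * f s.im) := by ring
    rw [h6, abs_mul, abs_of_nonneg h0]
    calc ω s * |a s - 2 * r * f s.im| ≤ m s * (2 * r * b s) :=
          mul_le_mul h1 h3 (abs_nonneg _) h2
      _ = 2 * r * (m s * b s) := by ring
  · rw [if_pos hi]
    have h7 : 0 ≤ (if s ∈ F then b s else 0) := by
      split_ifs
      · exact hb0 s
      · exact le_rfl
    have h8 : 0 ≤ (if s ∈ F then a s else 0) ∧ (if s ∈ F then a s else 0) ≤ 2 * r * M := by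
      split_ifs
      · exact ha1 s
      · exact ⟨le_rfl, by positivity⟩
    have h9 := hf0 s.im
    have h10 := hfM s.im
    have h11 : |(if s ∈ F then a s else 0) - 2 * r * f s.im| ≤ 2 * r * M := by
      have h12 : 0 ≤ 2 * r * f s.im := by positivity
      have h13 : 2 * r * f s.im ≤ 2 * r * M := mul_le_mul_of_nonneg_left h10 (by positivity)
      rw [abs_le]
      constructor <;> linarith [h8.1, h8.2]
    have h6 : ω s * (if s ∈ F then a s else 0) - 2 * r * (ω s * f s.im) =
        ω s * ((if s ∈ F then a s else 0) - 2 * r * f s.im) := by ring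
    rw [h6, abs_mul, abs_of_nonneg h0]
    have h14 : ω s * |(if s ∈ F then a s else 0) - 2 * r * f s.im| ≤ m s * (2 * r * M) :=
      mul_le_mul h1 h11 (abs_nonneg _) h2
    have h15 : 0 ≤ 2 * r * (m s * (if s ∈ F then b s else 0)) := by positivity
    linarith

end

end Pool.Agent.Q61.UM
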